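import Pool.Agent.Lib.MP_3e612f_nt.NF.Base

/-! Auxiliary facts for the dyadic blocks (paper, Part U: U-Block). -/

set_option autoImplicit false

namespace Pool.Agent.Lib.MP_3e612f_nt.NF

open Finset
open Pool.Agent.Lib.MP_3e612f_nt.MR (mu ex)

/-- a base `Y` with `Y^m ≤ X < (2Y)^m` -/
theorem exists_root (m : ℕ) (hm : 1 ≤ m) (Ymin : ℕ) : ∃ X₀ : ℕ, ∀ X : ℕ, X₀ ≤ X → ∃ Y : ℕ, Ymin ≤ Y ∧ Y ^ m ≤ X ∧ X < (2 * Y) ^ m := by
  refine ⟨(Ymin + 1) ^ m, fun X hX => ?_⟩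
  set Y : ℕ := Nat.findGreatest (fun y => y ^ m ≤ X) X with hY
  have h1 : Ymin + 1 ≤ X := (Nat.le_self_pow (by omega) _).trans hX
  have h2 : Ymin + 1 ≤ Y := Nat.le_findGreatest h1 hX
  have h3 : Y ^ m ≤ X := Nat.findGreatest_spec (P := fun y => y ^ m ≤ X) h1 hX
  refine ⟨Y, by omega, h3, ?_⟩
  have h4 : X < (Y + 1) ^ m := by
    by_contra hcon
    push Not at hcon
    have h5 : Y + 1 ≤ X := (Nat.le_self_pow (by omega) _).trans hcon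
    have h6 : Y + 1 ≤ Y := Nat.le_findGreatest (P := fun y => y ^ m ≤ X) h5 hcon
    omega
  exact h4.trans_le (Nat.pow_le_pow_left (by omega) m)

/-- the blocks where `γ` is at an intermediate distance from a rational number with small denominator -/
def BadJ (t r₀ j₀ : ℕ) (ρ₀ D : ℝ) (γ : ℝ) (j : ℕ) : Prop :=
  j₀ ≤ j ∧ ∃ (b : ℤ) (r : ℕ), 1 ≤ r ∧ r < r₀ ∧ ρ₀ ≤ |γ - b / r| * (4 * (4 : ℝ) ^ j) ^ t ∧ |γ - b / r| * ((4 : ℝ) ^ j) ^ t < D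

theorem badJ_close (t r₀ j₀ B₀ : ℕ) (ht : 1 ≤ t) (ρ₀ D : ℝ) (hρ₀ : 0 < ρ₀) (hD : 0 < D) (hj₀ : 2 * D * (r₀ : ℝ) ^ 2 ≤ (4 : ℝ) ^ j₀)
    (hB₀ : D * 4 ^ t / ρ₀ < (4 : ℝ) ^ B₀) (γ : ℝ) (j j' : ℕ) (hj : BadJ t r₀ j₀ ρ₀ D γ j) (hj' : BadJ t r₀ j₀ ρ₀ D γ j') (hjj : j ≤ j') : j' < j + B₀ := by
  obtain ⟨h1, b, r, hr1, hr2, h2, h3⟩ := hj
  obtain ⟨h1', b', r', hr1', hr2', h2', h3'⟩ := hj'
  have hr0 : (0 : ℝ) < r := by exact_mod_cast hr1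
  have hr0' : (0 : ℝ) < r' := by exact_mod_cast hr1'
  have hpow : ∀ i : ℕ, j₀ ≤ i → (4 : ℝ) ^ j₀ ≤ ((4 : ℝ) ^ i) ^ t := by
    intro i hi
    rw [← pow_mul]
    refine pow_le_pow_right₀ (by norm_num) ?_
    calc j₀ ≤ i := hi
      _ = i * 1 := (mul_one i).symm
      _ ≤ i * t := Nat.mul_le_mul_left _ ht
  -- the fraction is the same
  have heq : (b : ℝ) / r = b' / r' := by
    by_contra hne
    have h4 : |γ - b / r| * (4 : ℝ) ^ j₀ < D := lt_of_le_of_lt (mul_le_mul_of_nonneg_left (hpow j h1) (abs_nonneg _)) h3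
    have h5 : |γ - b' / r'| * (4 : ℝ) ^ j₀ < D := lt_of_le_of_lt (mul_le_mul_of_nonneg_left (hpow j' h1') (abs_nonneg _)) h3'
    have h6 : |(b : ℝ) / r - b' / r'| ≤ |γ - b / r| + |γ - b' / r'| := by
      have : (b : ℝ) / r - b' / r' = (γ - b' / r') - (γ - b / r) := by ring
      rw [this]
      refine (abs_sub _ _).trans ?_
      linarith
    have h7 : 1 / ((r : ℝ) * r') ≤ |(b : ℝ) / r - b' / r'| := by
      have h8 : (b : ℝ) / r - b' / r' = ((b * r' - b' * r : ℤ) : ℝ) / (r * r') := by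
        push_cast
        field_simp
      have h9 : (b * r' - b' * r : ℤ) ≠ 0 := by
        intro h0
        apply hne
        have : ((b * r' - b' * r : ℤ) : ℝ) = 0 := by exact_mod_cast h0
        rw [this, zero_div] at h8
        linarith
      rw [h8, abs_div, abs_of_pos (by positivity : (0 : ℝ) < r * r')]
      refine div_le_div_of_nonneg_right ?_ (by positivity)
      have := Int.one_le_abs h9
      exact_mod_cast this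
    have h8 : (r : ℝ) * r' ≤ (r₀ : ℝ) ^ 2 := by
      have a1 : (r : ℝ) ≤ r₀ := by exact_mod_cast hr2.le
      have a2 : (r' : ℝ) ≤ r₀ := by exact_mod_cast hr2'.le
      rw [sq]
      exact mul_le_mul a1 a2 hr0'.le (by positivity)
    have h9 : (1 / ((r : ℝ) * r')) * (4 : ℝ) ^ j₀ < 2 * D := by
      have : (1 / ((r : ℝ) * r')) * (4 : ℝ) ^ j₀ ≤ (|γ - b / r| + |γ - b' / r'|) * (4 : ℝ) ^ j₀ := mul_le_mul_of_nonneg_right (h7.trans h6) (by positivity)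
      linarith
    rw [one_div_mul_eq_div, div_lt_iff₀ (by positivity)] at h9
    have h10 : 2 * D * ((r : ℝ) * r') ≤ 2 * D * (r₀ : ℝ) ^ 2 := mul_le_mul_of_nonneg_left h8 (by positivity)
    linarith
  rw [← heq] at h3'
  by_contra hcon
  push Not at hcon
  obtain ⟨d, rfl⟩ := Nat.exists_eq_add_of_le hcon
  -- `4^{B₀} ≤ 4^{(B₀ + d) t}`
  have h4 : |γ - b / r| * ((4 : ℝ) ^ (j + B₀ + d)) ^ t = |γ - b / r| * ((4 : ℝ) ^ j) ^ t * ((4 : ℝ) ^ (B₀ + d)) ^ t := by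
    rw [add_assoc, pow_add, mul_pow, mul_assoc]
  have h5 : (4 : ℝ) ^ B₀ ≤ ((4 : ℝ) ^ (B₀ + d)) ^ t := by
    rw [← pow_mul]
    refine pow_le_pow_right₀ (by norm_num) ?_
    calc B₀ ≤ B₀ + d := Nat.le_add_right _ _
      _ = (B₀ + d) * 1 := (mul_one _).symm
      _ ≤ (B₀ + d) * t := Nat.mul_le_mul_left _ ht
  have h6 : ρ₀ ≤ |γ - b / r| * ((4 : ℝ) ^ j) ^ t * 4 ^ t := by
    rw [mul_pow] at h2
    linarith
  have h7 : |γ - b / r| * ((4 : ℝ) ^ j) ^ t * (4 : ℝ) ^ B₀ < D := by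
    refine lt_of_le_of_lt ?_ h3'
    rw [h4]
    exact mul_le_mul_of_nonneg_left h5 (by positivity)
  rw [div_lt_iff₀ hρ₀] at hB₀
  have h8 : (4 : ℝ) ^ B₀ * ρ₀ ≤ (4 : ℝ) ^ B₀ * (|γ - b / r| * ((4 : ℝ) ^ j) ^ t * 4 ^ t) := mul_le_mul_of_nonneg_left h6 (by positivity)
  have h9 : (4 : ℝ) ^ B₀ * (|γ - b / r| * ((4 : ℝ) ^ j) ^ t * 4 ^ t) = (|γ - b / r| * ((4 : ℝ) ^ j) ^ t * (4 : ℝ) ^ B₀) * 4 ^ t := by ring
  have h10 : (|γ - b / r| * ((4 : ℝ) ^ j) ^ t * (4 : ℝ) ^ B₀) * 4 ^ t ≤ D * 4 ^ t := mul_le_mul_of_nonneg_right h7.le (by positivity)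
  linarith

/-- all bad `j` lie in an interval of length `B₀` -/
theorem exists_interval (t r₀ j₀ B₀ : ℕ) (ht : 1 ≤ t) (ρ₀ D : ℝ) (hρ₀ : 0 < ρ₀) (hD : 0 < D) (hj₀ : 2 * D * (r₀ : ℝ) ^ 2 ≤ (4 : ℝ) ^ j₀)
    (hB₀ : D * 4 ^ t / ρ₀ < (4 : ℝ) ^ B₀) (γ : ℝ) : ∃ J : ℕ, ∀ j : ℕ, j ∉ Ico J (J + B₀) → ¬ BadJ t r₀ j₀ ρ₀ D γ j := by
  classical
  by_cases h : ∃ j, BadJ t r₀ j₀ ρ₀ D γ j
  · refine ⟨Nat.find h, fun j hj hbad => hj ?_⟩
    have h1 : Nat.find h ≤ j := Nat.find_min' h hbad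
    rw [mem_Ico]
    exact ⟨h1, badJ_close t r₀ j₀ B₀ ht ρ₀ D hρ₀ hD hj₀ hB₀ γ _ _ (Nat.find_spec h) hbad h1⟩
  · push Not at h
    exact ⟨0, fun j _ => h j⟩

/-- Dirichlet's theorem in the form that is used -/
theorem dirichlet (γ : ℝ) (N : ℕ) (W : ℕ) (hW : 1 ≤ W) (hN : W ≤ N) : ∃ (b : ℤ) (r : ℕ), 1 ≤ r ∧ IsCoprime b (r : ℤ) ∧ r * W ≤ N ∧ |γ - b / r| * (r * (N : ℝ)) ≤ W := by
  have hn : 0 < N / W := Nat.div_pos hN hW
  obtain ⟨q, hq1, hq2⟩ := Real.exists_rat_abs_sub_le_and_den_le γ hn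
  refine ⟨q.num, q.den, q.pos, ?_, ?_, ?_⟩
  · exact Int.isCoprime_iff_gcd_eq_one.mpr q.reduced
  · calc q.den * W ≤ N / W * W := Nat.mul_le_mul_right _ hq2
      _ ≤ N := Nat.div_mul_le_self _ _
  · have h1 : (q : ℝ) = (q.num : ℝ) / q.den := by
      rw [Rat.cast_def]
    rw [← h1]
    have hden : (0 : ℝ) < q.den := by exact_mod_cast q.pos
    rw [le_div_iff₀ (by positivity)] at hq1
    have h2 : (N : ℝ) ≤ W * (((N / W : ℕ) : ℝ) + 1) := by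
      have h3 : N < W * (N / W + 1) := by
        have := Nat.lt_mul_div_succ N (show 0 < W by omega)
        exact this
      exact_mod_cast h3.le
    have h3 : 0 ≤ |γ - q| * q.den := by positivity
    calc |γ - q| * (q.den * (N : ℝ)) = (|γ - q| * q.den) * N := by ring
      _ ≤ (|γ - q| * q.den) * (W * (((N / W : ℕ) : ℝ) + 1)) := mul_le_mul_of_nonneg_left h2 h3
      _ = W * (|γ - q| * ((((N / W : ℕ) : ℝ) + 1) * q.den)) := by ring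
      _ ≤ W * 1 := mul_le_mul_of_nonneg_left hq1 (by positivity)
      _ = W := mul_one _

end Pool.Agent.Lib.MP_3e612f_nt.NF
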