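import Pool.Agent.Lib.MP_3e612f_nt.NF.U.BT

/-! Prime sums from averages over classes and positions (paper, Part U: U-Block (2), (3d)). -/

set_option autoImplicit false

namespace Pool.Agent.Lib.MP_3e612f_nt.NF

open Finset
open Pool.Agent.Lib.MP_3e612f_nt.MR (mu ex)

/-- `γ = b/r + θ`. Cut `(X, 4X]` into the intervals `(X + i ℓ, X + (i+1) ℓ]`, `i < M`, and into the classes modulo `r`: for a prime `p ≡ u (mod r)` in the `i`-th interval
`T(p^t γ) ≤ T(b u^t/r + θ (X + i ℓ)^t) + Lip |θ| (p^t - (X + iℓ)^t) ≤ T(..) + c₀`, and there are at most `C ℓ/(φ(r) log X)` such primes (`bt_short`; `p > X ≥ r` is prime to `r`). -/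
theorem loc_bt (t : ℕ) (ht : 1 ≤ t) : ∃ C : ℝ, 0 < C ∧ ∃ X₀ : ℕ, ∀ X : ℕ, X₀ ≤ X → ∀ (T : ℝ → ℝ) (Lip c₀ : ℝ), (∀ x, 0 ≤ T x) → (∀ x, ∀ z : ℤ, T (x + z) = T x) →
    (∀ x y, |T x - T y| ≤ Lip * |x - y|) → 0 < c₀ → ∀ (b : ℤ) (r ℓ M : ℕ) (θ : ℝ), 1 ≤ r → r ^ 16 ≤ X → X ≤ ℓ ^ 2 → 3 * X ≤ ℓ * M → ℓ * M ≤ 4 * X →
    Lip * (|θ| * (t * ℓ * (8 * (X : ℝ)) ^ (t - 1))) ≤ c₀ →
    ∑ i ∈ range M, ∑ u ∈ (range r).filter (fun u => Nat.Coprime u r), T (b * (u : ℝ) ^ t / r + θ * ((X : ℝ) + i * ℓ) ^ t) ≤ 2 * c₀ * (M * r.totient) →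
    ∑ p ∈ (Ioc X (4 * X)).filter Nat.Prime, T ((p : ℝ) ^ t * (b / r + θ)) ≤ C * c₀ * (X / Real.log X) := by
  obtain ⟨C', hC', X₁, hbt⟩ := bt_short
  refine ⟨12 * C', by positivity, max X₁ 3, ?_⟩
  intro X hX T Lip c₀ hT0 hTz hTL hc₀ b r ℓ M θ hr hrX hXℓ h3X h4X hLip hsum
  have hX1 : X₁ ≤ X := (le_max_left _ _).trans hX
  have hX3 : 3 ≤ X := (le_max_right _ _).trans hX
  have hℓ : 0 < ℓ := by
    rcases Nat.eq_zero_or_pos ℓ with h | h
    · rw [h] at hXℓ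
      omega
    · exact h
  have hrX' : r ≤ X := (Nat.le_self_pow (by norm_num) r).trans hrX
  have hLip0 : 0 ≤ Lip := by
    have h1 := hTL 1 0
    have h2 := abs_nonneg (T 1 - T 0)
    rw [sub_zero, abs_one, mul_one] at h1
    exact h2.trans h1
  have hlog : 0 < Real.log X := Real.log_pos (by exact_mod_cast (by omega : 1 < X))
  have hφ : #((range r).filter (fun u => Nat.Coprime u r)) = r.totient := by
    rw [Nat.totient]
    congr 1
    ext u
    simp only [mem_filter, Nat.coprime_comm]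
  have hφ0 : 0 < r.totient := Nat.totient_pos.2 hr
  have hφR : (0 : ℝ) < r.totient := by exact_mod_cast hφ0
  let g : ℕ → ℕ × ℕ := fun p => ((p - X - 1) / ℓ, p % r)
  let F : ℕ × ℕ → ℝ := fun x => T (b * (x.2 : ℝ) ^ t / r + θ * ((X : ℝ) + x.1 * ℓ) ^ t) + c₀
  have hF0 : ∀ x, 0 ≤ F x := fun x => add_nonneg (hT0 _) hc₀.le
  have hmaps : ∀ p ∈ (Ioc X (4 * X)).filter Nat.Prime,
      g p ∈ range M ×ˢ (range r).filter (fun u => Nat.Coprime u r) := by
    intro p hp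
    rw [mem_filter, mem_Ioc] at hp
    rw [mem_product, mem_range, mem_filter, mem_range]
    refine ⟨?_, Nat.mod_lt _ hr, ?_⟩
    · change (p - X - 1) / ℓ < M
      rw [Nat.div_lt_iff_lt_mul hℓ, mul_comm]
      omega
    · change Nat.Coprime (p % r) r
      have h1 : Nat.Coprime p r := by
        rw [hp.2.coprime_iff_not_dvd]
        intro h2
        have := Nat.le_of_dvd hr h2
        omega
      have h2 : Nat.gcd (p % r) r = Nat.gcd p r := by
        rw [Nat.gcd_comm p r, Nat.gcd_rec r p]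
      rw [Nat.Coprime, h2]
      exact h1
  -- one prime
  have hone : ∀ p ∈ (Ioc X (4 * X)).filter Nat.Prime, T ((p : ℝ) ^ t * (b / r + θ)) ≤ F (g p) := by
    intro p hp
    rw [mem_filter, mem_Ioc] at hp
    obtain ⟨⟨hpX, hp4⟩, hpp⟩ := hp
    set i : ℕ := (p - X - 1) / ℓ with hi
    have hi1 : X + i * ℓ ≤ p := by
      have := Nat.div_mul_le_self (p - X - 1) ℓ
      rw [← hi] at this
      omega
    have hi2 : p ≤ X + i * ℓ + ℓ := by
      have h1 := Nat.lt_mul_div_succ (p - X - 1) hℓ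
      rw [← hi] at h1
      have h2 : ℓ * (i + 1) = i * ℓ + ℓ := by ring
      omega
    obtain ⟨z, hz⟩ : ∃ z : ℤ, (p : ℝ) ^ t * b / r = b * ((p % r : ℕ) : ℝ) ^ t / r + z := by
      have h1 : (r : ℤ) ∣ (p : ℤ) ^ t - ((p % r : ℕ) : ℤ) ^ t := by
        have h2 : (r : ℤ) ∣ (p : ℤ) - ((p % r : ℕ) : ℤ) := by
          rw [← Nat.cast_sub (Nat.mod_le p r)]
          exact_mod_cast Nat.dvd_sub_mod p
        exact h2.trans (sub_dvd_pow_sub_pow _ _ t)
      obtain ⟨w, hw⟩ := h1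
      refine ⟨b * w, ?_⟩
      have h3 : (p : ℝ) ^ t - ((p % r : ℕ) : ℝ) ^ t = r * w := by exact_mod_cast hw
      have hr0 : (r : ℝ) ≠ 0 := by exact_mod_cast (by omega : r ≠ 0)
      have h4 : (p : ℝ) ^ t = ((p % r : ℕ) : ℝ) ^ t + r * w := by linarith
      rw [h4]
      push_cast
      field_simp
    have e1 : (p : ℝ) ^ t * (b / r + θ) = (b * ((p % r : ℕ) : ℝ) ^ t / r + θ * (p : ℝ) ^ t) + z := by
      rw [mul_add, ← mul_div_assoc, hz]
      ring
    rw [e1, hTz]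
    have h5 := hTL (b * ((p % r : ℕ) : ℝ) ^ t / r + θ * (p : ℝ) ^ t)
      (b * ((p % r : ℕ) : ℝ) ^ t / r + θ * ((X : ℝ) + i * ℓ) ^ t)
    have h6 : |(b * ((p % r : ℕ) : ℝ) ^ t / r + θ * (p : ℝ) ^ t) -
        (b * ((p % r : ℕ) : ℝ) ^ t / r + θ * ((X : ℝ) + i * ℓ) ^ t)| ≤
        |θ| * (t * ℓ * (8 * (X : ℝ)) ^ (t - 1)) := by
      rw [add_sub_add_left_eq_sub, ← mul_sub, abs_mul]
      apply mul_le_mul_of_nonneg_left _ (abs_nonneg _)
      have ha : ((X : ℝ) + i * ℓ) ≤ p := by exact_mod_cast hi1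
      have hb : (p : ℝ) - ((X : ℝ) + i * ℓ) ≤ ℓ := by
        have : (p : ℝ) ≤ (X : ℝ) + i * ℓ + ℓ := by exact_mod_cast hi2
        linarith
      have ha0 : 0 ≤ ((X : ℝ) + i * ℓ) := by positivity
      have hp8 : (p : ℝ) ≤ 8 * X := by
        have : p ≤ 8 * X := by omega
        exact_mod_cast this
      have h7 : |(p : ℝ) ^ t - ((X : ℝ) + i * ℓ) ^ t| = (p : ℝ) ^ t - ((X : ℝ) + i * ℓ) ^ t :=
        abs_of_nonneg (sub_nonneg.2 (pow_le_pow_left₀ ha0 ha t))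
      rw [h7, ← Commute.mul_geom_sum₂ (Commute.all _ _)]
      have h8 : ∑ k ∈ range t, (p : ℝ) ^ k * ((X : ℝ) + i * ℓ) ^ (t - 1 - k) ≤
          t * (8 * (X : ℝ)) ^ (t - 1) := by
        have h9 : ∀ k ∈ range t, (p : ℝ) ^ k * ((X : ℝ) + i * ℓ) ^ (t - 1 - k) ≤
            (8 * (X : ℝ)) ^ (t - 1) := by
          intro k hk
          rw [mem_range] at hk
          have h10 : (8 * (X : ℝ)) ^ (t - 1) = (8 * (X : ℝ)) ^ k * (8 * (X : ℝ)) ^ (t - 1 - k) := by
            rw [← pow_add]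
            congr 1
            omega
          rw [h10]
          exact mul_le_mul (pow_le_pow_left₀ (by positivity) hp8 _)
            (pow_le_pow_left₀ ha0 (ha.trans hp8) _) (by positivity) (by positivity)
        refine (Finset.sum_le_sum h9).trans ?_
        rw [Finset.sum_const, card_range, nsmul_eq_mul]
      calc ((p : ℝ) - ((X : ℝ) + i * ℓ)) * ∑ k ∈ range t, (p : ℝ) ^ k * ((X : ℝ) + i * ℓ) ^ (t - 1 - k)
          ≤ ℓ * (t * (8 * (X : ℝ)) ^ (t - 1)) :=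
            mul_le_mul hb h8 (Finset.sum_nonneg fun k _ => by positivity) (Nat.cast_nonneg _)
        _ = t * ℓ * (8 * (X : ℝ)) ^ (t - 1) := by ring
    have h7 := (le_abs_self _).trans (h5.trans ((mul_le_mul_of_nonneg_left h6 hLip0).trans hLip))
    change _ ≤ T (b * ((p % r : ℕ) : ℝ) ^ t / r + θ * ((X : ℝ) + ((i : ℕ) : ℝ) * ℓ) ^ t) + c₀
    linarith
  refine (Finset.sum_le_sum hone).trans ?_
  rw [← Finset.sum_fiberwise_of_maps_to hmaps]
  have hfib : ∀ x ∈ range M ×ˢ (range r).filter (fun u => Nat.Coprime u r),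
      ∑ p ∈ ((Ioc X (4 * X)).filter Nat.Prime).filter (fun p => g p = x), F (g p) ≤
      C' * ((ℓ : ℝ) / ((r.totient : ℝ) * Real.log X)) * F x := by
    intro x hx
    rw [mem_product, mem_range, mem_filter, mem_range] at hx
    have h1 : ∑ p ∈ ((Ioc X (4 * X)).filter Nat.Prime).filter (fun p => g p = x), F (g p) =
        (#(((Ioc X (4 * X)).filter Nat.Prime).filter (fun p => g p = x)) : ℝ) * F x := by
      rw [Finset.sum_congr rfl (fun p hp => by rw [(mem_filter.1 hp).2] : ∀ p ∈ _, F (g p) = F x),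
        Finset.sum_const, nsmul_eq_mul]
    rw [h1]
    apply mul_le_mul_of_nonneg_right _ (hF0 x)
    refine le_trans ?_ (hbt X hX1 (X + x.1 * ℓ) ℓ r x.2 (Nat.le_add_right _ _) hr hrX hx.2.2 hXℓ)
    have h2 : ((Ioc X (4 * X)).filter Nat.Prime).filter (fun p => g p = x) ⊆
        (Ioc (X + x.1 * ℓ) (X + x.1 * ℓ + ℓ)).filter (fun p => p.Prime ∧ p % r = x.2 % r) := by
      intro p hp
      rw [mem_filter, mem_filter, mem_Ioc] at hp
      obtain ⟨⟨⟨hpX, hp4⟩, hpp⟩, hgx⟩ := hp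
      have hx1 : (p - X - 1) / ℓ = x.1 := congrArg Prod.fst hgx
      have hx2 : p % r = x.2 := congrArg Prod.snd hgx
      have h3 := Nat.div_mul_le_self (p - X - 1) ℓ
      have h4 := Nat.lt_mul_div_succ (p - X - 1) hℓ
      rw [hx1] at h3 h4
      have h5 : ℓ * (x.1 + 1) = x.1 * ℓ + ℓ := by ring
      rw [mem_filter, mem_Ioc]
      refine ⟨⟨by omega, by omega⟩, hpp, ?_⟩
      rw [← hx2, Nat.mod_mod]
    exact_mod_cast card_le_card h2
  refine (Finset.sum_le_sum hfib).trans ?_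
  rw [← Finset.mul_sum, Finset.sum_product]
  have h1 : ∑ i ∈ range M, ∑ u ∈ (range r).filter (fun u => Nat.Coprime u r), F (i, u) ≤
      3 * c₀ * (M * r.totient) := by
    have h2 : ∑ i ∈ range M, ∑ u ∈ (range r).filter (fun u => Nat.Coprime u r), F (i, u) =
        ∑ i ∈ range M, ∑ u ∈ (range r).filter (fun u => Nat.Coprime u r),
          T (b * (u : ℝ) ^ t / r + θ * ((X : ℝ) + i * ℓ) ^ t) + M * r.totient * c₀ := by
      simp only [F, Finset.sum_add_distrib, Finset.sum_const, hφ, card_range, nsmul_eq_mul]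
      ring
    rw [h2]
    linarith
  have h2 : (ℓ : ℝ) * M ≤ 4 * X := by exact_mod_cast h4X
  calc C' * ((ℓ : ℝ) / ((r.totient : ℝ) * Real.log X)) *
        ∑ i ∈ range M, ∑ u ∈ (range r).filter (fun u => Nat.Coprime u r), F (i, u) ≤
      C' * ((ℓ : ℝ) / ((r.totient : ℝ) * Real.log X)) * (3 * c₀ * (M * r.totient)) :=
        mul_le_mul_of_nonneg_left h1 (by positivity)
    _ = 3 * C' * c₀ * (ℓ * M) / Real.log X := by
        field_simp
    _ ≤ 3 * C' * c₀ * (4 * X) / Real.log X := by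
        apply div_le_div_of_nonneg_right _ hlog.le
        exact mul_le_mul_of_nonneg_left h2 (by positivity)
    _ = 12 * C' * c₀ * (X / Real.log X) := by ring

end Pool.Agent.Lib.MP_3e612f_nt.NF
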