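import Pool.Agent.Lib.MP_3e612f_nt.NF.WeylAll

/-! Exponential sums over multiples, minor arcs (paper, Part U: U-Block (1)). -/

set_option autoImplicit false

namespace Pool.Agent.Lib.MP_3e612f_nt.NF

open Finset
open Pool.Agent.Lib.MP_3e612f_nt.MR (mu ex)

private theorem minE_image {X d : ℕ} (hd : 1 ≤ d) :
    (Ioc X (4 * X)).filter (fun n => d ∣ n) =
      (range (4 * X / d - X / d)).image fun x => d * (X / d + 1 + x) := by
  ext n
  simp only [mem_filter, mem_Ioc, mem_image, mem_range]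
  constructor
  · rintro ⟨⟨h1, h2⟩, m, rfl⟩
    have h3 : X / d < m := by
      rw [Nat.div_lt_iff_lt_mul (by omega), mul_comm]
      exact h1
    have h4 : m ≤ 4 * X / d := by
      rw [Nat.le_div_iff_mul_le (by omega), mul_comm]
      exact h2
    refine ⟨m - (X / d + 1), by omega, ?_⟩
    congr 1
    omega
  · rintro ⟨x, hx, rfl⟩
    refine ⟨⟨?_, ?_⟩, dvd_mul_right _ _⟩
    · have h3 : X / d < X / d + 1 + x := by omega
      rw [Nat.div_lt_iff_lt_mul (by omega), mul_comm] at h3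
      exact h3
    · have h4 : X / d + 1 + x ≤ 4 * X / d := by omega
      rw [Nat.le_div_iff_mul_le (by omega), mul_comm] at h4
      exact h4

private theorem minE_sum {X d : ℕ} (hd : 1 ≤ d) (f : ℕ → ℂ) :
    ∑ n ∈ Ioc X (4 * X), (if d ∣ n then f n else 0) =
      ∑ x ∈ range (4 * X / d - X / d), f (d * (X / d + 1 + x)) := by
  rw [← Finset.sum_filter, minE_image hd, Finset.sum_image]
  intro x _ y _ h
  have h' : d * (X / d + 1 + x) = d * (X / d + 1 + y) := h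
  have := Nat.eq_of_mul_eq_mul_left (by omega : 0 < d) h'
  omega

/-- Let `A` be the exponent of `weyl t`, `e = 4 s + 2`, `K = Y^e`, `a = e A + 2 s t + 2`, `a' = a + e A + 2`, `m₀` large. The multiples `n = d m` of `d` in `(X, 4X]` are `N ≥ 2X/d` (`≤ 3X/d + 1`) consecutive `m`; if the sum is larger than `4 X/Y^e` then
`weyl` for `l γ d^t (m_0 + x)^t` gives `1 ≤ k ≤ Y^{eA}` with `dZ(k l γ d^t) ≤ Y^{eA}/N^t ≤ Y^{eA} (d/X)^t`. With `s' = k |l| d^t ≤ L Y^{eA + 2st} ≤ Y^{a-1}` and an integer `z`: `|γ - z/s'| ≤ Y^{eA} / X^t`,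
`|γ - b/r| ≤ Y^{a'}/(r X^t)`, so `|z/s' - b/r| < 1/(r s')`: equality, so `r` divides `s'`, contradiction to `r > Y^a`. (`r ≤ X^t/Y^{a'}` is used for `r s' Y^{eA} < X^t/2`, and `s' Y^{a'} < X^t / 2` because `X ≥ Y^m`.) -/
theorem minor_exp (t : ℕ) (ht : 1 ≤ t) (s : ℕ) (hs : 1 ≤ s) : ∃ a a' m₀ : ℕ, ∀ m : ℕ, m₀ ≤ m → ∀ L : ℕ, ∃ Y₀ : ℕ, ∀ Y : ℕ, Y₀ ≤ Y → ∀ X : ℕ, Y ^ m ≤ X →
    ∀ (γ : ℝ) (b : ℤ) (r : ℕ), IsCoprime b (r : ℤ) → Y ^ a < r → r * Y ^ a' ≤ X ^ t → |γ - b / r| * (r * (X : ℝ) ^ t) ≤ (Y : ℝ) ^ a' →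
    ∀ l : ℤ, l ≠ 0 → |l| ≤ L → ∀ d : ℕ, 1 ≤ d → d ≤ Y ^ (2 * s) →
    ‖∑ n ∈ Ioc X (4 * X), (if d ∣ n then ex (l * ((n : ℝ) ^ t * γ)) else 0)‖ ≤ 4 * X / (Y : ℝ) ^ (4 * s + 2) := by
  obtain ⟨A, hA⟩ := weyl t ht
  obtain ⟨e, he⟩ : ∃ e : ℕ, e = 4 * s + 2 := ⟨_, rfl⟩
  refine ⟨e * A + 2 * s * t + 2, 2 * (e * A) + 2 * s * t + 4,
    (e * A + 2 * s * t) + (2 * (e * A) + 2 * s * t + 4) + 1 + 2 * s, ?_⟩
  intro m hm L
  refine ⟨2 * L + 2, ?_⟩
  intro Y hY X hX γ b r hbr hr1 hr2 hγ l hl0 hlL d hd1 hd2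
  rw [← he]
  by_contra hcon
  rw [not_le] at hcon
  have hY2 : 2 ≤ Y := by omega
  have hY2' : (2 : ℝ) ≤ Y := by exact_mod_cast hY2
  have hY1' : (1 : ℝ) ≤ Y := by linarith
  have hY0 : (0 : ℝ) < Y := by linarith
  -- `d ≤ X`
  have hYX : Y ^ (2 * s) ≤ X := by
    refine le_trans (Nat.pow_le_pow_right (by omega) ?_) hX
    omega
  have hdX : d ≤ X := hd2.trans hYX
  have hX0 : 0 < X := by omega
  have hX0' : (0 : ℝ) < X := by exact_mod_cast hX0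
  have hd0' : (0 : ℝ) < d := by exact_mod_cast hd1
  obtain ⟨N, hN⟩ : ∃ N : ℕ, N = 4 * X / d - X / d := ⟨_, rfl⟩
  -- size of `N`
  have hN1 : 2 * X ≤ d * N := by
    have h1 : X / d * d ≤ X := Nat.div_mul_le_self X d
    have h2 : 4 * X < d * (4 * X / d + 1) := by
      have := Nat.lt_div_mul_add (a := 4 * X) (b := d) (by omega)
      rw [mul_add, mul_one, mul_comm d]
      exact this
    have h3 : X / d ≤ 4 * X / d := Nat.div_le_div_right (by omega)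
    have h4 : d * N = d * (4 * X / d) - X / d * d := by
      rw [hN, Nat.mul_sub, mul_comm (X / d) d]
    rw [h4]
    rw [mul_add, mul_one] at h2
    omega
  have hN2 : N ≤ 4 * X := by
    rw [hN]
    exact (Nat.sub_le _ _).trans (Nat.div_le_self _ _)
  have hN0 : 0 < N := by
    rcases Nat.eq_zero_or_pos N with h | h
    · rw [h] at hN1
      omega
    · exact h
  have hN1' : 2 * (X : ℝ) ≤ d * N := by exact_mod_cast hN1
  have hN0' : (0 : ℝ) < N := by exact_mod_cast hN0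
  -- the polynomial
  obtain ⟨Q, hQ⟩ : ∃ Q : Polynomial ℝ, Q = Polynomial.C (l * γ * (d : ℝ) ^ t) *
    (Polynomial.X + Polynomial.C ((X / d + 1 : ℕ) : ℝ)) ^ t := ⟨_, rfl⟩
  have hQd : Q.natDegree ≤ t := by
    rw [hQ]
    refine (Polynomial.natDegree_C_mul_le _ _).trans ?_
    rw [Polynomial.natDegree_pow, Polynomial.natDegree_X_add_C, mul_one]
  have hQc : Q.coeff t = l * γ * (d : ℝ) ^ t := by
    rw [hQ, Polynomial.coeff_C_mul, Polynomial.coeff_X_add_C_pow]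
    simp
  have hQe : ∀ x : ℕ, ex (Q.eval (x : ℝ)) =
      ex (l * (((d * (X / d + 1 + x) : ℕ) : ℝ) ^ t * γ)) := by
    intro x
    congr 1
    rw [hQ]
    simp only [Polynomial.eval_mul, Polynomial.eval_C, Polynomial.eval_pow, Polynomial.eval_add,
      Polynomial.eval_X]
    push_cast
    rw [mul_pow, add_comm (x : ℝ)]
    ring
  have hsum : ∑ n ∈ Ioc X (4 * X), (if d ∣ n then ex (l * ((n : ℝ) ^ t * γ)) else 0) =
      ∑ x ∈ range N, ex (Q.eval (x : ℝ)) := by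
    rw [minE_sum hd1 (fun n => ex (l * ((n : ℝ) ^ t * γ))), ← hN]
    exact Finset.sum_congr rfl fun x _ => (hQe x).symm
  rw [hsum] at hcon
  have hK2 : (2 : ℝ) ≤ (Y : ℝ) ^ e := by
    calc (2 : ℝ) ≤ Y := hY2'
      _ = (Y : ℝ) ^ 1 := (pow_one _).symm
      _ ≤ (Y : ℝ) ^ e := pow_le_pow_right₀ hY1' (by omega)
  have hKA : ((Y : ℝ) ^ e) ^ A ≤ N := by
    rw [← pow_mul]
    have h1 : Y ^ (e * A) * Y ^ (2 * s) ≤ X := by
      rw [← pow_add]
      refine le_trans (Nat.pow_le_pow_right (by omega) ?_) hX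
      omega
    have h2 : Y ^ (e * A) * d ≤ d * N := by
      calc Y ^ (e * A) * d ≤ Y ^ (e * A) * Y ^ (2 * s) := Nat.mul_le_mul_left _ hd2
        _ ≤ X := h1
        _ ≤ 2 * X := by omega
        _ ≤ d * N := hN1
    have h3 : Y ^ (e * A) ≤ N := by
      rw [mul_comm] at h2
      exact Nat.le_of_mul_le_mul_left h2 (by omega)
    exact_mod_cast h3
  have hbig : (N : ℝ) ≤ (Y : ℝ) ^ e * ‖∑ n ∈ range N, ex (Q.eval (n : ℝ))‖ := by
    have h1 : (N : ℝ) ≤ 4 * X := by exact_mod_cast hN2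
    have h2 : 4 * (X : ℝ) < ‖∑ n ∈ range N, ex (Q.eval (n : ℝ))‖ * (Y : ℝ) ^ e := by
      rwa [div_lt_iff₀ (by positivity)] at hcon
    rw [mul_comm]
    linarith
  obtain ⟨k, hk1, hk2, hk3⟩ := hA ((Y : ℝ) ^ e) hK2 N hKA Q hQd hbig
  rw [← pow_mul] at hk2 hk3
  have hk2' : k ≤ Y ^ (e * A) := by exact_mod_cast hk2
  obtain ⟨z, hz⟩ := exists_int (k * Q.coeff t)
  rw [← hz, hQc] at hk3
  -- the integer `q = k l d^t`
  obtain ⟨q, hq⟩ : ∃ q : ℤ, q = k * l * d ^ t := ⟨_, rfl⟩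
  have hq0 : q ≠ 0 := by
    rw [hq]
    have : (k : ℤ) ≠ 0 := by
      have : k ≠ 0 := by omega
      exact_mod_cast this
    have hd' : (d : ℤ) ≠ 0 := by
      have : d ≠ 0 := by omega
      exact_mod_cast this
    exact mul_ne_zero (mul_ne_zero this hl0) (pow_ne_zero _ hd')
  have hqabs : q.natAbs ≤ L * Y ^ (e * A + 2 * s * t) := by
    have hl' : l.natAbs ≤ L := by
      have := Int.abs_eq_natAbs l
      omega
    have h1 : q.natAbs = k * l.natAbs * d ^ t := by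
      rw [hq, Int.natAbs_mul, Int.natAbs_mul, Int.natAbs_pow, Int.natAbs_natCast,
        Int.natAbs_natCast]
    rw [h1]
    calc k * l.natAbs * d ^ t ≤ Y ^ (e * A) * L * (Y ^ (2 * s)) ^ t :=
          Nat.mul_le_mul (Nat.mul_le_mul hk2' hl') (Nat.pow_le_pow_left hd2 t)
      _ = L * Y ^ (e * A + 2 * s * t) := by
          rw [← pow_mul, pow_add]
          ring
  have hqabs' : |(q : ℝ)| ≤ L * (Y : ℝ) ^ (e * A + 2 * s * t) := by
    have h1 : |(q : ℝ)| = (q.natAbs : ℝ) := by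
      rw [Nat.cast_natAbs, Int.cast_abs]
    rw [h1]
    exact_mod_cast hqabs
  have hk4 : |(q : ℝ) * γ - z| ≤ (Y : ℝ) ^ (e * A) / (N : ℝ) ^ t := by
    refine le_trans (le_of_eq ?_) hk3
    congr 1
    rw [hq]
    push_cast
    ring
  have hr0 : 0 < r := by omega
  have hr0' : (0 : ℝ) < r := by exact_mod_cast hr0
  have hr2' : (r : ℝ) * (Y : ℝ) ^ (2 * (e * A) + 2 * s * t + 4) ≤ (X : ℝ) ^ t := by
    exact_mod_cast hr2
  have hXt : (0 : ℝ) < (X : ℝ) ^ t := by positivity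
  -- first part
  have hp1 : (r : ℝ) * |(q : ℝ) * γ - z| < 1 / 2 := by
    have h1 : (X : ℝ) ^ t ≤ (d : ℝ) ^ t * (N : ℝ) ^ t := by
      rw [← mul_pow]
      exact pow_le_pow_left₀ hX0'.le (by linarith) t
    have h2 : (d : ℝ) ^ t ≤ (Y : ℝ) ^ (2 * s * t) := by
      have : (d : ℝ) ≤ (Y : ℝ) ^ (2 * s) := by exact_mod_cast hd2
      calc (d : ℝ) ^ t ≤ ((Y : ℝ) ^ (2 * s)) ^ t := pow_le_pow_left₀ hd0'.le this t
        _ = (Y : ℝ) ^ (2 * s * t) := by rw [← pow_mul]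
    have hNt : (0 : ℝ) < (N : ℝ) ^ t := by positivity
    have h3 : (r : ℝ) * |(q : ℝ) * γ - z| ≤ r * ((Y : ℝ) ^ (e * A) / (N : ℝ) ^ t) :=
      mul_le_mul_of_nonneg_left hk4 hr0'.le
    refine lt_of_le_of_lt h3 ?_
    rw [← mul_div_assoc, div_lt_iff₀ hNt]
    -- r Y^{eA} < N^t / 2
    have h4 : (r : ℝ) * (Y : ℝ) ^ (2 * (e * A) + 2 * s * t + 4) ≤
        (Y : ℝ) ^ (2 * s * t) * (N : ℝ) ^ t :=
      hr2'.trans (h1.trans (mul_le_mul_of_nonneg_right h2 hNt.le))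
    have h5 : (r : ℝ) * (Y : ℝ) ^ (2 * (e * A) + 2 * s * t + 4) =
        (Y : ℝ) ^ (2 * s * t) * (r * (Y : ℝ) ^ (e * A) * (Y : ℝ) ^ (e * A + 4)) := by
      have : 2 * (e * A) + 2 * s * t + 4 = 2 * s * t + (e * A) + (e * A + 4) := by ring
      rw [this, pow_add, pow_add]
      ring
    rw [h5] at h4
    have h6 := le_of_mul_le_mul_left h4 (by positivity)
    have h7 : (4 : ℝ) ≤ (Y : ℝ) ^ (e * A + 4) := by
      calc (4 : ℝ) = 2 ^ 2 := by norm_num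
        _ ≤ (Y : ℝ) ^ 2 := pow_le_pow_left₀ (by norm_num) hY2' 2
        _ ≤ (Y : ℝ) ^ (e * A + 4) := pow_le_pow_right₀ hY1' (by omega)
    have h8 : (0 : ℝ) < r * (Y : ℝ) ^ (e * A) := by positivity
    nlinarith
  -- second part
  have hp2 : |(q : ℝ)| * ((r : ℝ) * |γ - b / r|) < 1 / 2 := by
    have h1 : (r : ℝ) * |γ - b / r| ≤
        (Y : ℝ) ^ (2 * (e * A) + 2 * s * t + 4) / (X : ℝ) ^ t := by
      rw [le_div_iff₀ hXt]
      refine le_trans (le_of_eq ?_) hγ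
      ring
    have h2 : |(q : ℝ)| * ((r : ℝ) * |γ - b / r|) ≤
        (L * (Y : ℝ) ^ (e * A + 2 * s * t)) *
          ((Y : ℝ) ^ (2 * (e * A) + 2 * s * t + 4) / (X : ℝ) ^ t) :=
      mul_le_mul hqabs' h1 (by positivity) (by positivity)
    refine lt_of_le_of_lt h2 ?_
    rw [← mul_div_assoc, div_lt_iff₀ hXt]
    have h3 : (Y : ℝ) ^ m ≤ (X : ℝ) ^ t := by
      have h4 : (Y : ℝ) ^ m ≤ X := by exact_mod_cast hX
      have h5 : (1 : ℝ) ≤ X := by exact_mod_cast hX0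
      calc (Y : ℝ) ^ m ≤ X := h4
        _ = (X : ℝ) ^ 1 := (pow_one _).symm
        _ ≤ (X : ℝ) ^ t := pow_le_pow_right₀ h5 ht
    have h4 : (Y : ℝ) ^ ((e * A + 2 * s * t) + (2 * (e * A) + 2 * s * t + 4) + 1) ≤ (Y : ℝ) ^ m :=
      pow_le_pow_right₀ hY1' (by omega)
    rw [pow_add, pow_add, pow_one] at h4
    have h5 : 2 * (L : ℝ) + 2 ≤ Y := by exact_mod_cast hY
    have h6 : (0 : ℝ) < (Y : ℝ) ^ (e * A + 2 * s * t) * (Y : ℝ) ^ (2 * (e * A) + 2 * s * t + 4) := by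
      positivity
    nlinarith
  -- the integer `q b - z r`
  have hint : |((q * b - z * r : ℤ) : ℝ)| < 1 := by
    have h1 : ((q * b - z * r : ℤ) : ℝ) = r * (q * γ - z) - q * (r * (γ - b / r)) := by
      push_cast
      field_simp
      ring
    rw [h1]
    refine lt_of_le_of_lt (abs_sub _ _) ?_
    rw [abs_mul, abs_mul, abs_mul, abs_of_pos hr0']
    linarith
  have hzero : q * b - z * r = 0 := by
    rw [← Int.cast_abs] at hint
    have h2 : |q * b - z * r| < 1 := by exact_mod_cast hint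
    exact Int.abs_lt_one_iff.1 h2
  have hdvd : (r : ℤ) ∣ q := by
    have h1 : (r : ℤ) ∣ q * b := ⟨z, by linarith⟩
    exact hbr.symm.dvd_of_dvd_mul_right h1
  have hle : r ≤ q.natAbs := by
    have := Int.natAbs_dvd_natAbs.2 hdvd
    rw [Int.natAbs_natCast] at this
    exact Nat.le_of_dvd (Int.natAbs_pos.2 hq0) this
  have hlt : L * Y ^ (e * A + 2 * s * t) ≤ Y ^ (e * A + 2 * s * t + 2) := by
    have h1 : L ≤ Y := by omega
    calc L * Y ^ (e * A + 2 * s * t) ≤ Y * Y ^ (e * A + 2 * s * t) := Nat.mul_le_mul_right _ h1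
      _ = Y ^ (e * A + 2 * s * t + 1) := by rw [pow_succ, mul_comm]
      _ ≤ Y ^ (e * A + 2 * s * t + 2) := Nat.pow_le_pow_right (by omega) (by omega)
  omega

end Pool.Agent.Lib.MP_3e612f_nt.NF
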