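import Pool.Agent.Lib.MP_3e612f_nt.NF.Base
import Pool.Agent.Lib.MP_629a14_nt.Rob.BT

/-! Selberg's sieve for a weighted interval (paper, Part U: U-Block (1)). -/

set_option autoImplicit false

namespace Pool.Agent.Lib.MP_3e612f_nt.NF

open Finset
open Pool.Agent.Lib.MP_3e612f_nt.MR (mu ex)

private noncomputable def selTInv : ArithmeticFunction ℝ := ⟨fun d => 1 / (d : ℝ), by simp⟩

private theorem selTInv_apply (d : ℕ) : selTInv d = 1 / (d : ℝ) := rfl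

private theorem selTInv_mult : selTInv.IsMultiplicative := by
  rw [ArithmeticFunction.IsMultiplicative.iff_ne_zero]
  constructor
  · simp [selTInv_apply]
  · intro a b _ _ _
    rw [selTInv_apply, selTInv_apply, selTInv_apply]
    push_cast
    ring

/-- the sieve problem -/
private noncomputable def selTS (X Y : ℕ) (W : ℕ → ℝ) (hW : ∀ n, 0 ≤ W n) (G : ℝ) :
    BoundingSieve where
  support := Ioc X (4 * X)
  prodPrimes := MP_629a14_nt.Rob.Pq 1 Y
  prodPrimes_squarefree := MP_629a14_nt.Rob.Pq_squarefree 1 Y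
  weights := W
  weights_nonneg := hW
  totalMass := G
  nu := selTInv
  nu_mult := selTInv_mult
  nu_pos_of_prime := by
    intro p hp _
    rw [selTInv_apply]
    have : (0 : ℝ) < p := by exact_mod_cast hp.pos
    positivity
  nu_lt_one_of_prime := by
    intro p hp _
    rw [selTInv_apply]
    have : (1 : ℝ) < p := by exact_mod_cast hp.one_lt
    rw [div_lt_one (by linarith)]
    exact this

private theorem selT_terms (X Y : ℕ) (W : ℕ → ℝ) (hW : ∀ n, 0 ≤ W n) (G : ℝ) (d : ℕ) :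
    (selTS X Y W hW G).selbergTerms d = 1 / (d.totient : ℝ) := by
  rw [BoundingSieve.selbergTerms_apply]
  have h1 := Nat.totient_eq_mul_prod_factors d
  have h2 : ((d.totient : ℚ) : ℝ) = ((d * ∏ p ∈ d.primeFactors, (1 - (p : ℚ)⁻¹) : ℚ) : ℝ) := by
    rw [h1]
  push_cast at h2
  rw [h2]
  change selTInv d * ∏ p ∈ d.primeFactors, (1 - selTInv p)⁻¹ = _
  simp only [selTInv_apply]
  rw [prod_inv_distrib, one_div, one_div, mul_inv]
  simp only [one_div]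

private theorem selT_bigJ (X Y : ℕ) (W : ℕ → ℝ) (hW : ∀ n, 0 ≤ W n) (G : ℝ) (R : ℕ) :
    MP_60b32f_nt.bigJ (selTS X Y W hW G) R
      = ∑ d ∈ (MP_629a14_nt.Rob.Pq 1 Y).divisors.filter (fun d => d ≤ R), 1 / (d.totient : ℝ) := by
  unfold MP_60b32f_nt.bigJ MP_60b32f_nt.lev
  exact sum_congr rfl fun d _ => selT_terms X Y W hW G d

private theorem selT_sifted (X Y : ℕ) (hYX : Y ≤ X) (W : ℕ → ℝ) (hW : ∀ n, 0 ≤ W n) (G : ℝ) :
    ∑ p ∈ (Ioc X (4 * X)).filter Nat.Prime, W p ≤ (selTS X Y W hW G).siftedSum := by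
  unfold BoundingSieve.siftedSum
  change _ ≤ ∑ d ∈ Ioc X (4 * X), if Nat.Coprime (MP_629a14_nt.Rob.Pq 1 Y) d then W d else 0
  rw [← sum_filter]
  apply sum_le_sum_of_subset_of_nonneg
  · intro n hn
    rw [mem_filter] at hn ⊢
    refine ⟨hn.1, ?_⟩
    rw [Nat.coprime_iff_gcd_eq_one]
    by_contra hg
    obtain ⟨p, hp, hpd⟩ := Nat.exists_prime_and_dvd hg
    have p1 : p ∣ MP_629a14_nt.Rob.Pq 1 Y := hpd.trans (Nat.gcd_dvd_left _ _)
    have p2 : p ∣ n := hpd.trans (Nat.gcd_dvd_right _ _)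
    have p3 := ((MP_629a14_nt.Rob.prime_dvd_Pq hp).1 p1).1
    have p4 : p = n := (Nat.prime_dvd_prime_iff_eq hp hn.2).1 p2
    have p5 := (mem_Ioc.1 hn.1).1
    omega
  · intro n _ _
    exact hW n

/-- Selberg's upper bound sieve (`MP_60b32f_nt.selberg_bound`; copy the proof of `MP_629a14_nt.Rob.upper` with `q = 1`, weights `W`, total mass `G`, `R = Y^s`, `z = Y`, where `s` is such that `C₀ exp(-s) ≤ 1/2`):
the primes in `(X, 4X]` are prime to all primes below `Y`; main term `G * V(Y) * 2 ≤ 2 G/log Y` (`V_le`), error `∑_{d₁,d₂ ≤ Y^s} d₁ d₂ |rem| ≤ Y^{4s} E`. -/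
theorem selberg_T : ∃ s : ℕ, 1 ≤ s ∧ ∀ (X Y : ℕ) (W : ℕ → ℝ) (G E : ℝ), 2 ≤ Y → Y ≤ X → (∀ n, 0 ≤ W n) → 0 ≤ G → 0 ≤ E →
    (∀ d : ℕ, 1 ≤ d → d ≤ Y ^ (2 * s) → |∑ n ∈ Ioc X (4 * X), (if d ∣ n then W n else 0) - G / d| ≤ E) →
    ∑ p ∈ (Ioc X (4 * X)).filter Nat.Prime, W p ≤ 2 * G / Real.log Y + (Y : ℝ) ^ (4 * s) * E := by
  obtain ⟨C₀, hC₀, hrk⟩ := MP_629a14_nt.Rob.rankin
  refine ⟨⌈Real.log (2 * C₀)⌉₊ + 1, by omega, ?_⟩
  intro X Y W G E hY hYX hW hG hE hrem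
  set s : ℕ := ⌈Real.log (2 * C₀)⌉₊ + 1 with hs
  set R : ℕ := Y ^ s with hRdef
  have hY1 : 1 ≤ Y := by omega
  have hR : 1 ≤ R := Nat.one_le_pow _ _ hY1
  have hYr : (2 : ℝ) ≤ Y := by exact_mod_cast hY
  have hlogY : 0 < Real.log Y := Real.log_pos (by linarith)
  have hratio : Real.log R / Real.log Y = s := by
    rw [hRdef]
    push_cast
    rw [Real.log_pow]
    field_simp
  have hx : C₀ * Real.exp (-(Real.log R / Real.log Y)) ≤ 1 / 2 := by
    rw [hratio]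
    have h1 : Real.log (2 * C₀) ≤ s := by
      rw [hs]
      push_cast
      have := Nat.le_ceil (Real.log (2 * C₀))
      linarith
    have h2 : Real.exp (-(s : ℝ)) ≤ Real.exp (-Real.log (2 * C₀)) := Real.exp_le_exp.2 (by linarith)
    have h3 : Real.exp (-Real.log (2 * C₀)) = (2 * C₀)⁻¹ := by
      rw [Real.exp_neg, Real.exp_log (by linarith)]
    rw [h3] at h2
    calc C₀ * Real.exp (-(s : ℝ)) ≤ C₀ * (2 * C₀)⁻¹ := mul_le_mul_of_nonneg_left h2 (by linarith)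
      _ = 1 / 2 := by
          have : C₀ ≠ 0 := by linarith
          field_simp
  have hS := MP_60b32f_nt.selberg_bound (selTS X Y W hW G) R hR
  have h1 := selT_sifted X Y hYX W hW G
  have h2 := hrk 1 Y R le_rfl hY hR
  rw [← selT_bigJ X Y W hW G R] at h2
  set J := MP_60b32f_nt.bigJ (selTS X Y W hW G) R with hJ
  set x := C₀ * Real.exp (-(Real.log R / Real.log Y)) with hxd
  have hx0 : 0 ≤ x := by positivity
  have hV := MP_629a14_nt.Rob.Vq_pos 1 Y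
  have hJpos : 0 < J := MP_60b32f_nt.bigJ_pos hR
  have hJinv : J⁻¹ ≤ MP_629a14_nt.Rob.Vq 1 Y * (1 + 2 * x) := by
    rw [inv_le_comm₀ hJpos (by positivity)]
    refine le_trans ?_ h2
    rw [mul_inv, mul_comm]
    apply mul_le_mul_of_nonneg_right _ (inv_nonneg.2 hV.le)
    rw [inv_le_iff_one_le_mul₀ (by positivity)]
    nlinarith
  have hVle : MP_629a14_nt.Rob.Vq 1 Y ≤ 1 / Real.log Y := MP_629a14_nt.Rob.V_le Y hY
  have herr : ∑ d1 ∈ MP_60b32f_nt.lev (selTS X Y W hW G) R, ∑ d2 ∈ MP_60b32f_nt.lev (selTS X Y W hW G) R,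
      ((selTS X Y W hW G).nu d1)⁻¹ * ((selTS X Y W hW G).nu d2)⁻¹
        * |(selTS X Y W hW G).rem (d1.lcm d2)| ≤ (Y : ℝ) ^ (4 * s) * E := by
    have hnu : ∀ d, ((selTS X Y W hW G).nu d)⁻¹ = (d : ℝ) := by
      intro d
      change (selTInv d)⁻¹ = d
      rw [selTInv_apply, one_div, inv_inv]
    have hsub : MP_60b32f_nt.lev (selTS X Y W hW G) R ⊆ Icc 1 R := by
      intro d hd
      rw [mem_Icc]
      have := MP_60b32f_nt.mem_lev.1 hd
      exact ⟨Nat.pos_of_ne_zero (ne_zero_of_dvd_ne_zero (MP_629a14_nt.Rob.Pq_squarefree 1 Y).ne_zero this.1),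
        this.2⟩
    have hremd : ∀ d1 ∈ MP_60b32f_nt.lev (selTS X Y W hW G) R, ∀ d2 ∈ MP_60b32f_nt.lev (selTS X Y W hW G) R,
        |(selTS X Y W hW G).rem (d1.lcm d2)| ≤ E := by
      intro d1 hd1 d2 hd2
      have e1 := mem_Icc.1 (hsub hd1)
      have e2 := mem_Icc.1 (hsub hd2)
      have e3 : d1.lcm d2 ≤ Y ^ (2 * s) := by
        calc d1.lcm d2 ≤ d1 * d2 := Nat.le_of_dvd (Nat.mul_pos e1.1 e2.1) (Nat.lcm_dvd_mul _ _)
          _ ≤ R * R := Nat.mul_le_mul e1.2 e2.2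
          _ = Y ^ (2 * s) := by
              rw [hRdef]
              ring
      have e4 := hrem (d1.lcm d2) (Nat.lcm_pos e1.1 e2.1) e3
      have e5 : (selTS X Y W hW G).rem (d1.lcm d2) =
          ∑ n ∈ Ioc X (4 * X), (if d1.lcm d2 ∣ n then W n else 0) - G / (d1.lcm d2 : ℕ) := by
        unfold BoundingSieve.rem BoundingSieve.multSum
        change (∑ n ∈ Ioc X (4 * X), if d1.lcm d2 ∣ n then W n else 0)
          - selTInv (d1.lcm d2) * G = _
        rw [selTInv_apply]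
        ring
      rw [e5]
      exact e4
    have h3 : ∀ d1 ∈ MP_60b32f_nt.lev (selTS X Y W hW G) R, ∀ d2 ∈ MP_60b32f_nt.lev (selTS X Y W hW G) R,
        ((selTS X Y W hW G).nu d1)⁻¹ * ((selTS X Y W hW G).nu d2)⁻¹
        * |(selTS X Y W hW G).rem (d1.lcm d2)| ≤ (d1 : ℝ) * d2 * E := by
      intro d1 hd1 d2 hd2
      rw [hnu, hnu]
      exact mul_le_mul_of_nonneg_left (hremd d1 hd1 d2 hd2) (by positivity)
    have h6 : ∑ d ∈ MP_60b32f_nt.lev (selTS X Y W hW G) R, (d : ℝ) ≤ (R : ℝ) ^ 2 := by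
      calc ∑ d ∈ MP_60b32f_nt.lev (selTS X Y W hW G) R, (d : ℝ) ≤ ∑ d ∈ Icc 1 R, (d : ℝ) :=
            sum_le_sum_of_subset_of_nonneg hsub (fun d _ _ => Nat.cast_nonneg d)
        _ ≤ ∑ _d ∈ Icc 1 R, (R : ℝ) :=
            sum_le_sum fun d hd => by exact_mod_cast (mem_Icc.1 hd).2
        _ = (R : ℝ) ^ 2 := by
            rw [sum_const, Nat.card_Icc, nsmul_eq_mul, Nat.add_sub_cancel]
            ring
    have h7 : 0 ≤ ∑ d ∈ MP_60b32f_nt.lev (selTS X Y W hW G) R, (d : ℝ) :=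
      sum_nonneg fun d _ => Nat.cast_nonneg d
    calc _ ≤ ∑ d1 ∈ MP_60b32f_nt.lev (selTS X Y W hW G) R, ∑ d2 ∈ MP_60b32f_nt.lev (selTS X Y W hW G) R,
          (d1 : ℝ) * d2 * E := sum_le_sum fun d1 hd1 => sum_le_sum fun d2 hd2 => h3 d1 hd1 d2 hd2
      _ = (∑ d ∈ MP_60b32f_nt.lev (selTS X Y W hW G) R, (d : ℝ)) ^ 2 * E := by
          rw [sq, sum_mul_sum, sum_mul]
          refine sum_congr rfl fun d1 _ => ?_
          rw [sum_mul]
      _ ≤ ((R : ℝ) ^ 2) ^ 2 * E := mul_le_mul_of_nonneg_right (pow_le_pow_left₀ h7 h6 2) hE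
      _ = (Y : ℝ) ^ (4 * s) * E := by
          rw [hRdef]
          push_cast
          ring
  have hM : (selTS X Y W hW G).totalMass = G := rfl
  rw [hM] at hS
  have h8 : G * J⁻¹ ≤ 2 * G / Real.log Y := by
    have h9 : J⁻¹ ≤ 2 / Real.log Y := by
      calc J⁻¹ ≤ MP_629a14_nt.Rob.Vq 1 Y * (1 + 2 * x) := hJinv
        _ ≤ MP_629a14_nt.Rob.Vq 1 Y * 2 := mul_le_mul_of_nonneg_left (by linarith) hV.le
        _ ≤ 1 / Real.log Y * 2 := mul_le_mul_of_nonneg_right hVle (by norm_num)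
        _ = 2 / Real.log Y := by ring
    calc G * J⁻¹ ≤ G * (2 / Real.log Y) := mul_le_mul_of_nonneg_left h9 hG
      _ = 2 * G / Real.log Y := by ring
  linarith

end Pool.Agent.Lib.MP_3e612f_nt.NF
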