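import Pool.Agent.Lib.MP_3e612f_nt.NF.U.Trig
import Pool.Agent.Lib.MP_3e612f_nt.NF.U.SelT
import Pool.Agent.Lib.MP_3e612f_nt.NF.U.MinE

/-! The minor arcs (paper, Part U: U-Block (1)). -/

set_option autoImplicit false

namespace Pool.Agent.Lib.MP_3e612f_nt.NF

open Finset
open Pool.Agent.Lib.MP_3e612f_nt.MR (mu ex)

/-- The number of multiples of `d` in `(X, 4X]`. -/
theorem minor_count (X d : ℕ) (hd : 1 ≤ d) :
    |(#((Ioc X (4 * X)).filter fun n => d ∣ n) : ℝ) - 3 * X / d| ≤ 1 := by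
  have h1 : #((Ioc 0 (4 * X)).filter fun n => d ∣ n) =
      #((Ioc 0 X).filter fun n => d ∣ n) + #((Ioc X (4 * X)).filter fun n => d ∣ n) := by
    rw [← card_union_of_disjoint]
    · congr 1
      ext n
      simp only [mem_filter, mem_Ioc, mem_union]
      constructor
      · rintro ⟨⟨h1, h2⟩, h3⟩
        by_cases h : n ≤ X
        · exact Or.inl ⟨⟨h1, h⟩, h3⟩
        · exact Or.inr ⟨⟨by omega, h2⟩, h3⟩
      · rintro (⟨⟨h1, h2⟩, h3⟩ | ⟨⟨h1, h2⟩, h3⟩)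
        · exact ⟨⟨h1, by omega⟩, h3⟩
        · exact ⟨⟨by omega, h2⟩, h3⟩
    · rw [disjoint_left]
      intro n hn hn'
      rw [mem_filter, mem_Ioc] at hn hn'
      omega
  rw [Nat.Ioc_filter_dvd_card_eq_div, Nat.Ioc_filter_dvd_card_eq_div] at h1
  have hd0 : (0 : ℝ) < d := by exact_mod_cast hd
  have h2 : ((4 * X / d : ℕ) : ℝ) = ((X / d : ℕ) : ℝ) +
      (#((Ioc X (4 * X)).filter fun n => d ∣ n) : ℝ) := by exact_mod_cast h1
  have h3 : ((4 * X / d : ℕ) : ℝ) ≤ 4 * X / d := by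
    have := Nat.cast_div_le (α := ℝ) (m := 4 * X) (n := d)
    push_cast at this
    exact this
  have h4 : (4 : ℝ) * X / d - 1 ≤ ((4 * X / d : ℕ) : ℝ) := by
    have h5 := Nat.lt_div_mul_add (a := 4 * X) (b := d) hd
    have h6 : ((4 * X : ℕ) : ℝ) < ((4 * X / d : ℕ) : ℝ) * d + d := by exact_mod_cast h5
    push_cast at h6
    rw [sub_le_iff_le_add, div_le_iff₀ hd0]
    linarith
  have h5 : ((X / d : ℕ) : ℝ) ≤ X / d := Nat.cast_div_le
  have h6 : (X : ℝ) / d - 1 ≤ ((X / d : ℕ) : ℝ) := by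
    have h5 := Nat.lt_div_mul_add (a := X) (b := d) hd
    have h6 : ((X : ℕ) : ℝ) < ((X / d : ℕ) : ℝ) * d + d := by exact_mod_cast h5
    rw [sub_le_iff_le_add, div_le_iff₀ hd0]
    linarith
  have h7 : (3 : ℝ) * X / d = 4 * X / d - X / d := by ring
  rw [abs_le, h7]
  constructor <;> linarith

/-- The remainder of the sieve. -/
theorem minor_rem {L : ℕ} {c : ℤ → ℂ} {T : ℝ → ℝ} {c₀ : ℝ} (hT : TM L c T c₀) (t X d : ℕ) (hd : 1 ≤ d)
    (γ B : ℝ) (hB : ∀ l : ℤ, l ≠ 0 → |l| ≤ L →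
      ‖∑ n ∈ Ioc X (4 * X), (if d ∣ n then ex (l * ((n : ℝ) ^ t * γ)) else 0)‖ ≤ B) :
    |∑ n ∈ Ioc X (4 * X), (if d ∣ n then T ((n : ℝ) ^ t * γ) else 0) - 3 * X * c₀ / d| ≤
      c₀ + (∑ l ∈ (Icc (-(L : ℤ)) L).erase 0, ‖c l‖) * B := by
  have h1 : ((∑ n ∈ Ioc X (4 * X), (if d ∣ n then T ((n : ℝ) ^ t * γ) else 0) : ℝ) : ℂ) =
      ∑ l ∈ Icc (-(L : ℤ)) L, c l *
        ∑ n ∈ Ioc X (4 * X), (if d ∣ n then ex (l * ((n : ℝ) ^ t * γ)) else 0) := by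
    rw [Complex.ofReal_sum]
    simp only [Finset.mul_sum]
    rw [Finset.sum_comm]
    refine sum_congr rfl fun n _ => ?_
    by_cases h : d ∣ n
    · simp only [if_pos h]
      exact hT.eq _
    · simp only [if_neg h, mul_zero, sum_const_zero, Complex.ofReal_zero]
  have h0 : (0 : ℤ) ∈ Icc (-(L : ℤ)) L := by
    rw [mem_Icc]
    constructor <;> omega
  have h2 : ((0 : ℤ) : ℝ) = 0 := by norm_num
  have h3 : ∑ n ∈ Ioc X (4 * X), (if d ∣ n then ex (((0 : ℤ) : ℝ) * ((n : ℝ) ^ t * γ)) else 0) =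
      ((#((Ioc X (4 * X)).filter fun n => d ∣ n) : ℝ) : ℂ) := by
    rw [← sum_filter]
    simp only [h2, zero_mul, ex_zero, sum_const, nsmul_eq_mul, mul_one]
    norm_cast
  rw [← Finset.add_sum_erase _ _ h0, h3, hT.zero] at h1
  have h4 : ((∑ n ∈ Ioc X (4 * X), (if d ∣ n then T ((n : ℝ) ^ t * γ) else 0) - 3 * X * c₀ / d : ℝ) : ℂ) =
      ((c₀ * ((#((Ioc X (4 * X)).filter fun n => d ∣ n) : ℝ) - 3 * X / d) : ℝ) : ℂ) +
      ∑ l ∈ (Icc (-(L : ℤ)) L).erase 0, c l *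
        ∑ n ∈ Ioc X (4 * X), (if d ∣ n then ex (l * ((n : ℝ) ^ t * γ)) else 0) := by
    rw [Complex.ofReal_sub, h1]
    push_cast
    ring
  have h5 : |∑ n ∈ Ioc X (4 * X), (if d ∣ n then T ((n : ℝ) ^ t * γ) else 0) - 3 * X * c₀ / d| =
      ‖((∑ n ∈ Ioc X (4 * X), (if d ∣ n then T ((n : ℝ) ^ t * γ) else 0) - 3 * X * c₀ / d : ℝ) : ℂ)‖ := by
    rw [Complex.norm_real, Real.norm_eq_abs]
  rw [h5, h4]
  refine (norm_add_le _ _).trans (add_le_add ?_ ?_)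
  · rw [Complex.norm_real, Real.norm_eq_abs, abs_mul, abs_of_pos hT.pos]
    calc c₀ * _ ≤ c₀ * 1 := mul_le_mul_of_nonneg_left (minor_count X d hd) hT.pos.le
      _ = c₀ := mul_one _
  · rw [sum_mul]
    refine (norm_sum_le _ _).trans (sum_le_sum fun l hl => ?_)
    rw [mem_erase, mem_Icc] at hl
    rw [norm_mul]
    exact mul_le_mul_of_nonneg_left (hB l hl.1 (abs_le.2 hl.2)) (norm_nonneg _)

/-- `selberg_T` with `W n = T(n^t γ)`, `G = 3 X c₀`: for `d ≤ Y^{2s}` the sum of `W` over the multiples of `d` is `c₀ (3X/d + O(1)) + O((∑ |c_l|) 4X/Y^{4s+2})` (`minor_exp`), so `E = c₀ + (∑ |c_l|) 4 X/Y^{4s+2}`;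
`Y^{4s} E ≤ c₀ X/log X` for large `Y` (`X ≥ Y^m`, `m ≥ 4s + 2`; `log X ≤ m log(2Y) ≤ Y`), and `log Y ≥ log X/(2m)` as `X < (2Y)^m`. -/
theorem minor (t : ℕ) (ht : 1 ≤ t) : ∃ a a' m₀ : ℕ, ∀ m : ℕ, m₀ ≤ m → ∃ C : ℝ, 0 < C ∧ ∀ (L : ℕ) (c : ℤ → ℂ) (T : ℝ → ℝ) (c₀ : ℝ), TM L c T c₀ →
    ∃ Y₀ : ℕ, ∀ Y : ℕ, Y₀ ≤ Y → ∀ X : ℕ, Y ^ m ≤ X → X < (2 * Y) ^ m →
    ∀ (γ : ℝ) (b : ℤ) (r : ℕ), IsCoprime b (r : ℤ) → Y ^ a < r → r * Y ^ a' ≤ X ^ t → |γ - b / r| * (r * (X : ℝ) ^ t) ≤ (Y : ℝ) ^ a' →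
    ∑ p ∈ (Ioc X (4 * X)).filter Nat.Prime, T ((p : ℝ) ^ t * γ) ≤ C * c₀ * (X / Real.log X) := by
  obtain ⟨s, hs, hsel⟩ := selberg_T
  obtain ⟨a, a', m₁, hexp⟩ := minor_exp t ht s hs
  refine ⟨a, a', max m₁ (4 * s + 1), fun m hm => ⟨12 * m + 2, by positivity, fun L c T c₀ hT => ?_⟩⟩
  have hm1 : m₁ ≤ m := (le_max_left _ _).trans hm
  have hm2 : 4 * s + 1 ≤ m := (le_max_right _ _).trans hm
  obtain ⟨Y₁, hY₁⟩ := hexp m hm1 L
  obtain ⟨S, hS⟩ : ∃ S, S = ∑ l ∈ (Icc (-(L : ℤ)) L).erase 0, ‖c l‖ := ⟨_, rfl⟩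
  have hS0 : 0 ≤ S := by
    rw [hS]
    exact sum_nonneg fun l _ => norm_nonneg _
  have hc0 := hT.pos
  refine ⟨max (max Y₁ 2) (max (16 * m ^ 2) ⌈4 * S / c₀⌉₊), ?_⟩
  intro Y hY X hX1 hX2 γ b r hbr hr1 hr2 hr3
  have hYa : Y₁ ≤ Y := ((le_max_left _ _).trans (le_max_left _ _)).trans hY
  have hY2 : 2 ≤ Y := ((le_max_right _ _).trans (le_max_left _ _)).trans hY
  have hYm : 16 * m ^ 2 ≤ Y := ((le_max_left _ _).trans (le_max_right _ _)).trans hY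
  have hYS : 4 * S / c₀ ≤ Y :=
    (Nat.le_ceil _).trans (by exact_mod_cast ((le_max_right _ _).trans (le_max_right _ _)).trans hY)
  have hY0 : (0 : ℝ) < Y := by exact_mod_cast (by omega : 0 < Y)
  have hYX : Y ≤ X := le_trans (Nat.le_self_pow (by omega) Y) hX1
  have hX0 : (0 : ℝ) < X := by exact_mod_cast (by omega : 0 < X)
  have hmain := hsel X Y (fun n => T ((n : ℝ) ^ t * γ)) (3 * X * c₀) (c₀ + S * (4 * X / (Y : ℝ) ^ (4 * s + 2)))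
    hY2 hYX (fun n => hT.nonneg _) (by positivity) (by positivity) (by
      intro d hd1 hd2
      rw [hS]
      exact minor_rem hT t X d hd1 γ _ fun l hl1 hl2 =>
        hY₁ Y hYa X hX1 γ b r hbr hr1 hr2 hr3 l hl1 hl2 d hd1 hd2)
  refine hmain.trans ?_
  have hlY : 0 < Real.log Y := Real.log_pos (by exact_mod_cast hY2)
  have hX2' : (2 : ℝ) ≤ X := by exact_mod_cast (by omega : 2 ≤ X)
  have hlX : 0 < Real.log X := Real.log_pos (by linarith)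
  have hlXY : Real.log X ≤ 2 * m * Real.log Y := by
    have h1 : (X : ℝ) ≤ ((Y : ℝ) ^ 2) ^ m := by
      have h2 : X ≤ (Y ^ 2) ^ m := hX2.le.trans (Nat.pow_le_pow_left (by nlinarith) m)
      exact_mod_cast h2
    have h3 := Real.log_le_log hX0 h1
    rw [Real.log_pow, Real.log_pow] at h3
    push_cast at h3
    linarith
  have hlY2 : 2 * m * Real.log Y ≤ Y := by
    have h1 : Real.log Y ≤ 2 * √(Y : ℝ) := by
      have h2 := Real.log_le_sub_one_of_pos (Real.sqrt_pos.2 hY0)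
      rw [Real.log_sqrt hY0.le] at h2
      linarith
    have h3 : (4 : ℝ) * m ≤ √(Y : ℝ) := by
      refine Real.le_sqrt_of_sq_le ?_
      have h4 : ((16 * m ^ 2 : ℕ) : ℝ) ≤ Y := by exact_mod_cast hYm
      push_cast at h4
      linarith
    have h5 := Real.mul_self_sqrt hY0.le
    have h6 := Real.sqrt_nonneg (Y : ℝ)
    have hm0 : (0 : ℝ) ≤ m := Nat.cast_nonneg m
    nlinarith
  have hlXle : Real.log X ≤ Y := hlXY.trans hlY2
  -- the main term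
  have t1 : 2 * (3 * X * c₀) / Real.log Y ≤ 12 * m * (c₀ * (X / Real.log X)) := by
    rw [div_le_iff₀ hlY]
    have h1 : 12 * (m : ℝ) * (c₀ * (X / Real.log X)) * Real.log Y =
        6 * X * c₀ * (2 * m * Real.log Y / Real.log X) := by ring
    rw [h1]
    have h2 : 1 ≤ 2 * m * Real.log Y / Real.log X := by
      rw [le_div_iff₀ hlX]
      linarith
    have h3 : 0 ≤ 6 * X * c₀ := by positivity
    nlinarith
  -- the second term
  have t2 : (Y : ℝ) ^ (4 * s) * c₀ ≤ c₀ * (X / Real.log X) := by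
    rw [mul_comm]
    refine mul_le_mul_of_nonneg_left ?_ hc0.le
    rw [le_div_iff₀ hlX]
    have h1 : (Y : ℝ) ^ (4 * s) * Y ≤ X := by
      rw [← pow_succ]
      have h2 : Y ^ (4 * s + 1) ≤ X := (Nat.pow_le_pow_right (by omega) hm2).trans hX1
      exact_mod_cast h2
    exact (mul_le_mul_of_nonneg_left hlXle (by positivity)).trans h1
  -- the third term
  have t3 : (Y : ℝ) ^ (4 * s) * (S * (4 * X / (Y : ℝ) ^ (4 * s + 2))) ≤ c₀ * (X / Real.log X) := by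
    have h1 : (Y : ℝ) ^ (4 * s) * (S * (4 * X / (Y : ℝ) ^ (4 * s + 2))) = 4 * S * X / (Y : ℝ) ^ 2 := by
      rw [pow_add]
      field_simp
    rw [h1, div_le_iff₀ (by positivity)]
    have h2 : c₀ * (X / Real.log X) * (Y : ℝ) ^ 2 = (c₀ * Y) * X * (Y / Real.log X) := by ring
    rw [h2]
    have h3 : 4 * S ≤ c₀ * Y := by
      rw [div_le_iff₀ hc0] at hYS
      linarith
    have h4 : 1 ≤ Y / Real.log X := by
      rw [le_div_iff₀ hlX]
      linarith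
    have h5 : 4 * S * X ≤ c₀ * Y * X := mul_le_mul_of_nonneg_right h3 hX0.le
    have h6 : 0 ≤ c₀ * Y * X := by positivity
    nlinarith
  have h1 : (Y : ℝ) ^ (4 * s) * (c₀ + S * (4 * X / (Y : ℝ) ^ (4 * s + 2))) =
      (Y : ℝ) ^ (4 * s) * c₀ + (Y : ℝ) ^ (4 * s) * (S * (4 * X / (Y : ℝ) ^ (4 * s + 2))) := by ring
  rw [h1]
  have h2 : (12 * (m : ℝ) + 2) * c₀ * (X / Real.log X) =
      12 * m * (c₀ * (X / Real.log X)) + c₀ * (X / Real.log X) + c₀ * (X / Real.log X) := by ring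
  rw [h2]
  linarith

end Pool.Agent.Lib.MP_3e612f_nt.NF
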