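import Pool.Agent.Lib.MP_3e612f_nt.NF.U.Avg
import Pool.Agent.Lib.MP_3e612f_nt.NF.U.LocBT
import Pool.Agent.Lib.MP_3e612f_nt.NF.U.Minor
import Pool.Agent.Lib.MP_3e612f_nt.NF.U.Block

/-! The block estimate with its exceptional case (paper, Part U). -/

set_option autoImplicit false

namespace Pool.Agent.Lib.MP_3e612f_nt.NF

open Finset
open Pool.Agent.Lib.MP_3e612f_nt.MR (mu ex)

open scoped Classical in
/-- U-Block, two alternatives. `a, a', m₀` from `minor`, `m` large, `Y` with `Y^m ≤ X = 4^j < (2Y)^m`; Dirichlet: `γ = b/r + θ`, `(b,r) = 1`, `r ≤ X^t/Y^{a'}`, `|θ| r X^t ≤ Y^{a'}`. (1) `r > Y^a`: `minor`. (2) `r₀ ≤ r ≤ Y^a` and `|θ| X^t ≤ C₁`-like or large: `loc_bt` with `avg_units` (each position). (3) `r < r₀`: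
(b) `|θ| (4X)^t < ρ₀`: `p^t γ` is within `ρ₀` of `b p^t/r`: the sum is empty. (c) the exceptional case. (d) `C₁ < |θ| X^t`: `loc_bt` with `avg_space` (each class). -/
theorem block_alt (t : ℕ) (ht : 1 ≤ t) : ∃ Ct : ℝ, 0 < Ct ∧ ∀ (L : ℕ) (c : ℤ → ℂ) (T : ℝ → ℝ) (c₀ : ℝ), TM L c T c₀ → ∃ r₀ : ℕ, ∃ C₁ : ℝ, 1 ≤ C₁ ∧ ∃ j₀ : ℕ, ∀ ρ₀ : ℝ, 0 < ρ₀ → ∀ γ : ℝ, ∀ j : ℕ, j₀ ≤ j →
      (∑ p ∈ (Ioc (4 ^ j : ℕ) (4 ^ (j + 1))).filter (fun p : ℕ => p.Prime ∧ ∀ r : ℕ, 1 ≤ r → r < r₀ → ∀ b : ℤ, ρ₀ ≤ |(p : ℝ) ^ t * γ - b / r|), T ((p : ℝ) ^ t * γ)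
        ≤ Ct * c₀ * ((4 : ℝ) ^ j / j)) ∨
      ∃ (b : ℤ) (r : ℕ), 1 ≤ r ∧ r < r₀ ∧ IsCoprime b (r : ℤ) ∧ ρ₀ ≤ |γ - b / r| * ((4 : ℝ) ^ (j + 1)) ^ t ∧ |γ - b / r| * ((4 : ℝ) ^ j) ^ t ≤ C₁ := by
  obtain ⟨a, a', m₀, hmin⟩ := minor t ht
  set m : ℕ := m₀ + 16 * a + 2 * a' + 4 with hm
  obtain ⟨C₁, hC₁, hminor⟩ := hmin m (by omega)
  obtain ⟨C₂, hC₂, X₁, hloc⟩ := loc_bt t ht
  refine ⟨C₁ + C₂, by positivity, fun L c T c₀ h => ?_⟩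
  obtain ⟨Lip, hLip1, hLip⟩ := h.lip
  obtain ⟨r₀, hr₀⟩ := avg_units t ht h
  obtain ⟨ρ, hρ, D, hD1, hsp⟩ := avg_space t ht h
  obtain ⟨Y₁, hY₁⟩ := hminor L c T c₀ h
  have hc₀ := h.pos
  have hD : 0 < D := by linarith
  set Ymin : ℕ := Y₁ + 4 + ⌈Lip * (t * 8 ^ (t - 1)) / c₀⌉₊ + ⌈1 / ρ⌉₊ with hYmin
  obtain ⟨X₂, hX₂⟩ := exists_root m (by omega) Ymin
  set j₀ : ℕ := X₁ + X₂ + 2 with hj₀
  refine ⟨r₀, D, hD1, j₀, fun ρ₀ hρ₀ γ j hj => ?_⟩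
  by_contra hcon
  rw [not_or] at hcon
  obtain ⟨hcon, hnb⟩ := hcon
  apply hcon
  set X : ℕ := 4 ^ j with hX
  have hXj : j < X := Nat.lt_pow_self (by norm_num)
  have hXr : (X : ℝ) = (4 : ℝ) ^ j := by rw [hX]; push_cast; rfl
  have hX4 : 4 ^ (j + 1) = 4 * X := by rw [hX, pow_succ, mul_comm]
  have hXpos : 0 < X := by omega
  have hXpos' : (0 : ℝ) < X := by exact_mod_cast hXpos
  obtain ⟨Y, hY1, hY2, hY3⟩ := hX₂ X (by omega)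
  have hj0 : (0 : ℝ) < j := by
    have : 0 < j := by omega
    exact_mod_cast this
  -- logarithm
  have hlog : (X : ℝ) / Real.log X ≤ (4 : ℝ) ^ j / j := by
    rw [hXr, Real.log_pow]
    have h4 : 1 ≤ Real.log 4 := by
      have h5 : Real.log 4 = 2 * Real.log 2 := by
        rw [show (4 : ℝ) = 2 ^ 2 by norm_num, Real.log_pow]
        push_cast
        ring
      have := Real.log_two_gt_d9
      rw [h5]
      linarith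
    refine div_le_div_of_nonneg_left (by positivity) hj0 ?_
    nlinarith
  -- all primes
  have hall : ∑ p ∈ (Ioc (4 ^ j : ℕ) (4 ^ (j + 1))).filter (fun p : ℕ => p.Prime ∧ ∀ r : ℕ, 1 ≤ r → r < r₀ → ∀ b : ℤ, ρ₀ ≤ |(p : ℝ) ^ t * γ - b / r|), T ((p : ℝ) ^ t * γ)
      ≤ ∑ p ∈ (Ioc X (4 * X)).filter Nat.Prime, T ((p : ℝ) ^ t * γ) := by
    refine sum_le_sum_of_subset_of_nonneg ?_ fun p _ _ => h.nonneg _
    intro p hp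
    rw [mem_filter] at hp ⊢
    rw [← hX4]
    exact ⟨hp.1, hp.2.1⟩
  have hfin : ∀ C' : ℝ, 0 ≤ C' → C' ≤ C₁ + C₂ → ∑ p ∈ (Ioc X (4 * X)).filter Nat.Prime, T ((p : ℝ) ^ t * γ) ≤ C' * c₀ * (X / Real.log X) →
      ∑ p ∈ (Ioc (4 ^ j : ℕ) (4 ^ (j + 1))).filter (fun p : ℕ => p.Prime ∧ ∀ r : ℕ, 1 ≤ r → r < r₀ → ∀ b : ℤ, ρ₀ ≤ |(p : ℝ) ^ t * γ - b / r|), T ((p : ℝ) ^ t * γ)
        ≤ (C₁ + C₂) * c₀ * ((4 : ℝ) ^ j / j) := by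
    intro C' hC'0 hC' hle
    refine hall.trans (hle.trans ?_)
    calc C' * c₀ * (X / Real.log X) ≤ C' * c₀ * ((4 : ℝ) ^ j / j) := mul_le_mul_of_nonneg_left hlog (by positivity)
      _ ≤ (C₁ + C₂) * c₀ * ((4 : ℝ) ^ j / j) := by gcongr
  -- Dirichlet
  have hYpos : 0 < Y := by omega
  have hYpos' : (0 : ℝ) < Y := by exact_mod_cast hYpos
  have hW1 : 1 ≤ Y ^ a' := Nat.pos_of_ne_zero (pow_ne_zero _ hYpos.ne')
  have hWX : Y ^ a' ≤ X ^ t := by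
    calc Y ^ a' ≤ Y ^ m := Nat.pow_le_pow_right hYpos (by omega)
      _ ≤ X := hY2
      _ ≤ X ^ t := Nat.le_self_pow (by omega) X
  obtain ⟨b, r, hr1, hbr, hrN, hθ⟩ := dirichlet γ (X ^ t) (Y ^ a') hW1 hWX
  push_cast at hθ
  have hr0 : (0 : ℝ) < r := by exact_mod_cast hr1
  rcases lt_or_ge (Y ^ a) r with hra | hra
  · -- minor arcs
    exact hfin C₁ hC₁.le (by linarith) (hY₁ Y (by omega) X hY2 hY3 γ b r hbr hra hrN hθ)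
  -- major arcs
  obtain ⟨θ, hθdef⟩ : ∃ θ : ℝ, θ = γ - b / r := ⟨_, rfl⟩
  rw [← hθdef] at hθ
  have hγ : γ = b / r + θ := by rw [hθdef]; ring
  obtain ⟨ℓ, M, hM1, hℓ1, hℓ2, hℓ3, hℓ4, hℓ5⟩ := exists_len Y a' m (by omega) (by omega) X hY2
  have hr16 : r ^ 16 ≤ X := by
    calc r ^ 16 ≤ (Y ^ a) ^ 16 := Nat.pow_le_pow_left hra 16
      _ = Y ^ (16 * a) := by rw [← pow_mul, mul_comm a 16]
      _ ≤ Y ^ m := Nat.pow_le_pow_right hYpos (by omega)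
      _ ≤ X := hY2
  -- `|θ| X^t ≤ Y^a'`
  have hθ1 : |θ| * (X : ℝ) ^ t ≤ (Y : ℝ) ^ a' := by
    have hr1' : (1 : ℝ) ≤ r := by exact_mod_cast hr1
    have h1 : |θ| * (X : ℝ) ^ t * 1 ≤ |θ| * (X : ℝ) ^ t * r := mul_le_mul_of_nonneg_left hr1' (by positivity)
    calc |θ| * (X : ℝ) ^ t = |θ| * (X : ℝ) ^ t * 1 := (mul_one _).symm
      _ ≤ |θ| * (X : ℝ) ^ t * r := h1
      _ = |θ| * (r * (X : ℝ) ^ t) := by ring
      _ ≤ (Y : ℝ) ^ a' := hθ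
  -- `|θ| ℓ X^(t-1) ≤ 1/Y`
  have hXt : (X : ℝ) ^ t = X * (X : ℝ) ^ (t - 1) := by
    rw [← pow_succ']
    congr 1
    omega
  have hθ2 : |θ| * (ℓ * (X : ℝ) ^ (t - 1)) ≤ 1 / Y := by
    have h1 : (ℓ : ℝ) * (Y : ℝ) ^ (a' + 1) ≤ X := by exact_mod_cast hℓ4
    have h2 : |θ| * (ℓ * (X : ℝ) ^ (t - 1)) * (Y : ℝ) ^ (a' + 1) ≤ (Y : ℝ) ^ a' := by
      calc |θ| * (ℓ * (X : ℝ) ^ (t - 1)) * (Y : ℝ) ^ (a' + 1) = (|θ| * (X : ℝ) ^ (t - 1)) * (ℓ * (Y : ℝ) ^ (a' + 1)) := by ring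
        _ ≤ (|θ| * (X : ℝ) ^ (t - 1)) * X := mul_le_mul_of_nonneg_left h1 (by positivity)
        _ = |θ| * (X : ℝ) ^ t := by rw [hXt]; ring
        _ ≤ (Y : ℝ) ^ a' := hθ1
    rw [le_div_iff₀ hYpos']
    rw [pow_succ] at h2
    have h3 : (|θ| * (ℓ * (X : ℝ) ^ (t - 1)) * Y) * (Y : ℝ) ^ a' ≤ 1 * (Y : ℝ) ^ a' := by
      calc (|θ| * (ℓ * (X : ℝ) ^ (t - 1)) * Y) * (Y : ℝ) ^ a' = |θ| * (ℓ * (X : ℝ) ^ (t - 1)) * ((Y : ℝ) ^ a' * Y) := by ring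
        _ ≤ (Y : ℝ) ^ a' := h2
        _ = 1 * (Y : ℝ) ^ a' := (one_mul _).symm
    exact le_of_mul_le_mul_right h3 (by positivity)
  have hvar : Lip * (|θ| * (t * ℓ * (8 * (X : ℝ)) ^ (t - 1))) ≤ c₀ := by
    have h1 : Lip * (t * 8 ^ (t - 1)) / c₀ ≤ Y := by
      refine (Nat.le_ceil _).trans ?_
      have : ⌈Lip * (t * 8 ^ (t - 1)) / c₀⌉₊ ≤ Y := by omega
      exact_mod_cast this
    rw [div_le_iff₀ hc₀] at h1
    have h2 : Lip * (|θ| * (t * ℓ * (8 * (X : ℝ)) ^ (t - 1))) = Lip * (t * 8 ^ (t - 1)) * (|θ| * (ℓ * (X : ℝ) ^ (t - 1))) := by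
      rw [mul_pow]
      ring
    rw [h2]
    calc Lip * (t * 8 ^ (t - 1)) * (|θ| * (ℓ * (X : ℝ) ^ (t - 1))) ≤ (Y * c₀) * (1 / Y) := by
          refine mul_le_mul h1 hθ2 (by positivity) (by positivity)
      _ = c₀ := by field_simp
  have hℓt : |θ| * (ℓ : ℝ) ^ t ≤ ρ := by
    have h1 : 1 / ρ ≤ Y := by
      refine (Nat.le_ceil _).trans ?_
      have : ⌈1 / ρ⌉₊ ≤ Y := by omega
      exact_mod_cast this
    have h2 : (1 : ℝ) / Y ≤ ρ := by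
      rw [div_le_iff₀ hρ] at h1
      rw [div_le_iff₀ hYpos']
      linarith
    have h3 : (ℓ : ℝ) ^ t = ℓ * (ℓ : ℝ) ^ (t - 1) := by
      rw [← pow_succ']
      congr 1
      omega
    have h4 : (ℓ : ℝ) ^ (t - 1) ≤ (X : ℝ) ^ (t - 1) := pow_le_pow_left₀ (by positivity) (by exact_mod_cast hℓ5) _
    calc |θ| * (ℓ : ℝ) ^ t = |θ| * (ℓ * (ℓ : ℝ) ^ (t - 1)) := by rw [h3]
      _ ≤ |θ| * (ℓ * (X : ℝ) ^ (t - 1)) := by gcongr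
      _ ≤ ρ := hθ2.trans h2
  have hmajor : ∑ i ∈ range M, ∑ u ∈ (range r).filter (fun u => Nat.Coprime u r), T (b * (u : ℝ) ^ t / r + θ * ((X : ℝ) + i * ℓ) ^ t) ≤ 2 * c₀ * (M * r.totient) →
      ∑ p ∈ (Ioc (4 ^ j : ℕ) (4 ^ (j + 1))).filter (fun p : ℕ => p.Prime ∧ ∀ r : ℕ, 1 ≤ r → r < r₀ → ∀ b : ℤ, ρ₀ ≤ |(p : ℝ) ^ t * γ - b / r|), T ((p : ℝ) ^ t * γ)
        ≤ (C₁ + C₂) * c₀ * ((4 : ℝ) ^ j / j) := by
    intro havg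
    refine hfin C₂ hC₂.le (by linarith) ?_
    rw [hγ]
    exact hloc X (by omega) T Lip c₀ h.nonneg h.per hLip hc₀ b r ℓ M θ hr1 hr16 hℓ1 hℓ2 hℓ3 hvar havg
  rcases le_or_gt r₀ r with hrr | hrr
  · -- large denominator
    refine hmajor ?_
    have h1 : ∀ i ∈ range M, ∑ u ∈ (range r).filter (fun u => Nat.Coprime u r), T (b * (u : ℝ) ^ t / r + θ * ((X : ℝ) + i * ℓ) ^ t) ≤ 2 * c₀ * r.totient :=
      fun i _ => hr₀ r hrr b hbr _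
    refine (sum_le_sum h1).trans (le_of_eq ?_)
    rw [sum_const, card_range, nsmul_eq_mul]
    ring
  rcases le_or_gt D (|θ| * (X : ℝ) ^ t) with hDθ | hDθ
  · -- small denominator, far away
    refine hmajor ?_
    rw [sum_comm]
    have h1 : ∀ u ∈ (range r).filter (fun u => Nat.Coprime u r), ∑ i ∈ range M, T (b * (u : ℝ) ^ t / r + θ * ((X : ℝ) + i * ℓ) ^ t) ≤ 2 * c₀ * M :=
      fun u _ => hsp X ℓ M θ _ hM1 (by omega) hℓt hDθ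
    refine (sum_le_sum h1).trans (le_of_eq ?_)
    rw [sum_const, nsmul_eq_mul]
    have h2 : #((range r).filter (fun u => Nat.Coprime u r)) = r.totient := by
      rw [Nat.totient_eq_card_coprime]
      congr 1
      refine filter_congr fun u _ => ?_
      exact Nat.coprime_comm
    rw [h2]
    ring
  rcases le_or_gt ρ₀ (|θ| * (4 * (X : ℝ)) ^ t) with hρθ | hρθ
  · -- intermediate distance: excluded
    exfalso
    apply hnb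
    refine ⟨b, r, hr1, hrr, hbr, ?_, ?_⟩
    · rw [← hθdef, pow_succ, ← hXr, mul_comm (X : ℝ) 4]
      exact hρθ
    · rw [← hθdef, ← hXr]
      exact hDθ.le
  · -- very close: no prime is counted
    have hempty : (Ioc (4 ^ j : ℕ) (4 ^ (j + 1))).filter (fun p : ℕ => p.Prime ∧ ∀ r : ℕ, 1 ≤ r → r < r₀ → ∀ b : ℤ, ρ₀ ≤ |(p : ℝ) ^ t * γ - b / r|) = ∅ := by
      rw [filter_eq_empty_iff]
      rintro p hp ⟨-, hfar⟩
      rw [mem_Ioc, hX4] at hp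
      have h1 := hfar r hr1 hrr (b * p ^ t)
      have h2 : (p : ℝ) ^ t * γ - ((b * p ^ t : ℤ) : ℝ) / r = (p : ℝ) ^ t * θ := by
        rw [hγ]
        push_cast
        ring
      rw [h2, abs_mul, abs_of_nonneg (by positivity)] at h1
      have h3 : (p : ℝ) ^ t ≤ (4 * (X : ℝ)) ^ t := by
        refine pow_le_pow_left₀ (by positivity) ?_ _
        exact_mod_cast hp.2
      have h4 : (p : ℝ) ^ t * |θ| ≤ (4 * (X : ℝ)) ^ t * |θ| := mul_le_mul_of_nonneg_right h3 (abs_nonneg _)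
      linarith
    rw [hempty, sum_empty]
    positivity

end Pool.Agent.Lib.MP_3e612f_nt.NF
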