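import Pool.Agent.Lib.MP_3e612f_nt.NF.Base

/-! Chebyshev bounds in the intervals `(4^j, 4^(j+1)]` (paper, Part U: U-Cheb). -/

set_option autoImplicit false

namespace Pool.Agent.Lib.MP_3e612f_nt.NF

open Finset
open Pool.Agent.Lib.MP_3e612f_nt.MR (mu ex)

theorem cheb_theta_nat (n : ℕ) :
    Chebyshev.theta (n : ℝ) = ∑ p ∈ (Ioc 0 n).filter Nat.Prime, Real.log (p : ℝ) := by
  rw [Chebyshev.theta, Nat.floor_natCast]

theorem cheb_theta_sub (a b : ℕ) (hab : a ≤ b) :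
    ∑ p ∈ (Ioc a b).filter Nat.Prime, Real.log (p : ℝ) =
      Chebyshev.theta (b : ℝ) - Chebyshev.theta (a : ℝ) := by
  rw [cheb_theta_nat, cheb_theta_nat, eq_sub_iff_add_eq, add_comm, sum_filter, sum_filter,
    sum_filter]
  exact Finset.sum_Ioc_consecutive _ (Nat.zero_le a) hab

theorem cheb_log_pow (j : ℕ) : Real.log ((4 ^ j : ℕ) : ℝ) = j * Real.log 4 := by
  push_cast
  rw [Real.log_pow]

theorem cheb_log_four : Real.log 4 = 2 * Real.log 2 := by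
  rw [show (4 : ℝ) = 2 ^ 2 by norm_num, Real.log_pow]
  norm_num

theorem cheb_log_four_pos : 0 < Real.log 4 := Real.log_pos (by norm_num)

/-- `θ(4X) - θ(X) ≥ X` for `X = 4^j`, `j` large. -/
theorem cheb_gap : ∃ j₀ : ℕ, 1 ≤ j₀ ∧ ∀ j : ℕ, j₀ ≤ j → ((4 ^ j : ℕ) : ℝ) ≤
    ∑ p ∈ (Ioc (4 ^ j : ℕ) (4 ^ (j + 1))).filter Nat.Prime, Real.log (p : ℝ) := by
  have hlim : Filter.Tendsto (fun n : ℕ => ((n : ℝ) ^ 1 / (2 : ℝ) ^ n)) Filter.atTop (nhds 0) :=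
    tendsto_pow_const_div_const_pow_of_one_lt 1 (by norm_num)
  have hev : ∀ᶠ n : ℕ in Filter.atTop, (n : ℝ) ^ 1 / (2 : ℝ) ^ n < 1 / 100 :=
    hlim.eventually_lt_const (by norm_num)
  obtain ⟨N, hN⟩ := Filter.eventually_atTop.1 hev
  refine ⟨N + 1, by omega, fun j hj => ?_⟩
  have h1 : ((j + 1 : ℕ) : ℝ) ^ 1 / (2 : ℝ) ^ (j + 1) < 1 / 100 := hN (j + 1) (by omega)
  have hl2 : (0.6931471803 : ℝ) < Real.log 2 := Real.log_two_gt_d9
  have hl2' : Real.log 2 < (0.6931471808 : ℝ) := Real.log_two_lt_d9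
  have hl4 := cheb_log_four
  set X : ℝ := (2 : ℝ) ^ j with hX
  have hX1 : 1 ≤ X := one_le_pow₀ (by norm_num)
  have hXX : ((4 ^ j : ℕ) : ℝ) = X ^ 2 := by
    push_cast
    rw [hX, ← pow_mul, mul_comm j 2, pow_mul]
    norm_num
  have hXX' : ((4 ^ (j + 1) : ℕ) : ℝ) = (2 * X) ^ 2 := by
    push_cast
    rw [pow_succ, mul_pow, hX, ← pow_mul, mul_comm j 2, pow_mul]
    norm_num
    ring
  rw [div_lt_iff₀ (by positivity), pow_one, pow_succ, ← hX] at h1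
  have h2 := Chebyshev.theta_ge (4 ^ (j + 1))
  have h3 : Chebyshev.theta ((4 ^ j : ℕ) : ℝ) ≤ Real.log 4 * ((4 ^ j : ℕ) : ℝ) :=
    Chebyshev.theta_le_log4_mul_x (by positivity)
  rw [cheb_theta_sub _ _ (Nat.pow_le_pow_right (by norm_num) (Nat.le_succ j))]
  have h4 : Real.log (((4 ^ (j + 1) : ℕ) : ℝ) + 1) ≤ 2 * ((j + 1 : ℕ) : ℝ) * Real.log 4 := by
    have h5 : Real.log (((4 ^ (j + 1) : ℕ) : ℝ) + 1) ≤
        Real.log (((4 ^ (2 * (j + 1)) : ℕ) : ℝ)) := by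
      apply Real.log_le_log (by positivity)
      have : (4 ^ (j + 1) : ℕ) + 1 ≤ 4 ^ (2 * (j + 1)) := by
        have h6 : 2 ≤ (4 ^ (j + 1) : ℕ) := by
          calc (2 : ℕ) ≤ 4 ^ 1 := by norm_num
            _ ≤ 4 ^ (j + 1) := Nat.pow_le_pow_right (by norm_num) (by omega)
        have h7 : (4 ^ (2 * (j + 1)) : ℕ) = 4 ^ (j + 1) * 4 ^ (j + 1) := by
          rw [two_mul, pow_add]
        rw [h7]
        nlinarith
      exact_mod_cast this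
    rw [cheb_log_pow] at h5
    push_cast at h5 ⊢
    exact h5
  have h5 : √(((4 ^ (j + 1) : ℕ) : ℝ)) = 2 * X := by
    rw [hXX']
    exact Real.sqrt_sq (by positivity)
  rw [h5, cheb_log_pow] at h2
  set J : ℝ := ((j + 1 : ℕ) : ℝ) with hJ
  have hJ0 : 0 ≤ J := Nat.cast_nonneg _
  rw [hXX'] at h2 h4 ⊢
  rw [hXX] at h3 ⊢
  rw [hl4] at h2 h3 h4
  have hJX : J * Real.log 2 ≤ X * 2 / 100 * Real.log 2 :=
    mul_le_mul_of_nonneg_right (by linarith) (by linarith)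
  have hJX2 : X * (J * Real.log 2) ≤ X * (X * 2 / 100 * Real.log 2) :=
    mul_le_mul_of_nonneg_left hJX (by linarith)
  have hXX2 : X ≤ X ^ 2 := by nlinarith
  have hXl : X * Real.log 2 ≤ X ^ 2 * Real.log 2 :=
    mul_le_mul_of_nonneg_right hXX2 (by linarith)
  have hX2l : X ^ 2 * 0.6931471803 ≤ X ^ 2 * Real.log 2 :=
    mul_le_mul_of_nonneg_left hl2.le (by positivity)
  nlinarith

/-- Lower bound. `θ(4X) ≥ 4 X log 2 - o(X)` and `θ(X) ≤ X log 4`, so `∑_{X < p ≤ 4X} log p ≥ X` for large `X` and `1/p ≥ log p / (4X log(4X))`. (Mathlib.NumberTheory.Chebyshev) -/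
theorem cheb_low : ∃ c : ℝ, 0 < c ∧ ∃ j₀ : ℕ, ∀ j : ℕ, j₀ ≤ j → c / j ≤ ∑ p ∈ (Ioc (4 ^ j : ℕ) (4 ^ (j + 1))).filter Nat.Prime, 1 / (p : ℝ) := by
  obtain ⟨j₀, hj₀, h⟩ := cheb_gap
  have hl := cheb_log_four_pos
  refine ⟨1 / (8 * Real.log 4), by positivity, j₀, fun j hj => ?_⟩
  have hj1 : (1 : ℝ) ≤ j := by exact_mod_cast hj₀.trans hj
  have h1 := h j hj
  have hterm : ∀ p ∈ (Ioc (4 ^ j : ℕ) (4 ^ (j + 1))).filter Nat.Prime,
      Real.log (p : ℝ) / (((4 ^ (j + 1) : ℕ) : ℝ) * ((j + 1 : ℕ) * Real.log 4)) ≤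
        1 / (p : ℝ) := by
    intro p hp
    rw [mem_filter, mem_Ioc] at hp
    have hp0 : (0 : ℝ) < p := by exact_mod_cast hp.2.pos
    have hp1 : (p : ℝ) ≤ ((4 ^ (j + 1) : ℕ) : ℝ) := by exact_mod_cast hp.1.2
    have hp2 : Real.log (p : ℝ) ≤ (j + 1 : ℕ) * Real.log 4 := by
      rw [← cheb_log_pow]
      exact Real.log_le_log hp0 hp1
    rw [div_le_div_iff₀ (by positivity) hp0, one_mul, mul_comm (Real.log (p : ℝ))]
    exact mul_le_mul hp1 hp2 (Real.log_natCast_nonneg p) (by positivity)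
  refine le_trans ?_ (Finset.sum_le_sum hterm)
  rw [← Finset.sum_div]
  refine le_trans ?_ (div_le_div_of_nonneg_right h1 (by positivity))
  rw [div_div, div_le_div_iff₀ (by positivity) (by positivity)]
  push_cast
  have h4 : (0 : ℝ) < 4 ^ j := by positivity
  rw [pow_succ]
  have : (4 : ℝ) ^ j * Real.log 4 * 1 ≤ 4 ^ j * Real.log 4 * j :=
    mul_le_mul_of_nonneg_left hj1 (by positivity)
  nlinarith

/-- Upper bound. `1/p ≤ log p / (X log X)` and `θ(4X) ≤ 4X log 4`. -/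
theorem cheb_up : ∃ C : ℝ, 0 < C ∧ ∀ j : ℕ, 1 ≤ j → ∑ p ∈ (Ioc (4 ^ j : ℕ) (4 ^ (j + 1))).filter Nat.Prime, 1 / (p : ℝ) ≤ C / j := by
  have hl := cheb_log_four_pos
  refine ⟨4, by norm_num, fun j hj => ?_⟩
  have hj1 : (1 : ℝ) ≤ j := by exact_mod_cast hj
  have hterm : ∀ p ∈ (Ioc (4 ^ j : ℕ) (4 ^ (j + 1))).filter Nat.Prime,
      1 / (p : ℝ) ≤ Real.log (p : ℝ) / (((4 ^ j : ℕ) : ℝ) * (j * Real.log 4)) := by
    intro p hp
    rw [mem_filter, mem_Ioc] at hp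
    have hp0 : (0 : ℝ) < p := by exact_mod_cast hp.2.pos
    have hp1 : ((4 ^ j : ℕ) : ℝ) ≤ (p : ℝ) := by exact_mod_cast hp.1.1.le
    have hp2 : j * Real.log 4 ≤ Real.log (p : ℝ) := by
      rw [← cheb_log_pow]
      exact Real.log_le_log (by positivity) hp1
    rw [div_le_div_iff₀ hp0 (by positivity), one_mul, mul_comm (Real.log (p : ℝ))]
    exact mul_le_mul hp1 hp2 (by positivity) hp0.le
  refine (Finset.sum_le_sum hterm).trans ?_
  rw [← Finset.sum_div, cheb_theta_sub _ _ (Nat.pow_le_pow_right (by norm_num) (Nat.le_succ j))]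
  have h3 : Chebyshev.theta ((4 ^ (j + 1) : ℕ) : ℝ) ≤
      Real.log 4 * ((4 ^ (j + 1) : ℕ) : ℝ) :=
    Chebyshev.theta_le_log4_mul_x (by positivity)
  have h4 : 0 ≤ Chebyshev.theta ((4 ^ j : ℕ) : ℝ) := Chebyshev.theta_nonneg _
  rw [div_le_div_iff₀ (by positivity) (by positivity)]
  calc (Chebyshev.theta ((4 ^ (j + 1) : ℕ) : ℝ) - Chebyshev.theta ((4 ^ j : ℕ) : ℝ)) * j
      ≤ (Real.log 4 * ((4 ^ (j + 1) : ℕ) : ℝ)) * j :=
        mul_le_mul_of_nonneg_right (by linarith) (by positivity)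
    _ = 4 * (((4 ^ j : ℕ) : ℝ) * (j * Real.log 4)) := by
        push_cast
        ring

end Pool.Agent.Lib.MP_3e612f_nt.NF
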