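import Pool.Agent.Lib.MP_3e612f_nt.NF.U.Trig

/-! Trigonometric majorants of small closed periodic sets (paper, Part U: U-Maj). -/

set_option autoImplicit false

namespace Pool.Agent.Lib.MP_3e612f_nt.NF

open Finset
open Pool.Agent.Lib.MP_3e612f_nt.MR (mu ex)

theorem maj_fourier (l : ℤ) (x : ℝ) : fourier l (x : AddCircle (1 : ℝ)) = ex (l * x) := by
  rw [fourier_coe_apply, ex]
  congr 1
  push_cast
  ring

/-- the image on the circle of a closed periodic set -/
theorem maj_closed (C : Set ℝ) (hC : IsClosed C) (hper : ∀ x ∈ C, ∀ z : ℤ, x + z ∈ C) :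
    ∃ D : Set (AddCircle (1 : ℝ)), IsClosed D ∧
      ∀ x : ℝ, (x : AddCircle (1 : ℝ)) ∈ D ↔ x ∈ C := by
  have hmem : ∀ x : ℝ, (x : AddCircle (1 : ℝ)) ∈ (fun x : ℝ => (x : AddCircle (1 : ℝ))) '' C ↔
      x ∈ C := by
    intro x
    constructor
    · rintro ⟨y, hy, h⟩
      have h3 := QuotientAddGroup.eq_iff_sub_mem.1 h
      obtain ⟨k, hk⟩ := AddSubgroup.mem_zmultiples_iff.1 h3
      rw [zsmul_eq_mul, mul_one] at hk
      have h4 : x = y + ((-k : ℤ) : ℝ) := by
        push_cast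
        linarith
      rw [h4]
      exact hper y hy _
    · intro h
      exact ⟨x, h, rfl⟩
  refine ⟨(fun x : ℝ => (x : AddCircle (1 : ℝ))) '' C, ?_, hmem⟩
  have hq : Topology.IsQuotientMap (fun x : ℝ => (x : AddCircle (1 : ℝ))) :=
    QuotientAddGroup.isOpenQuotientMap_mk.isQuotientMap
  rw [← hq.isClosed_preimage]
  have h1 : (fun x : ℝ => (x : AddCircle (1 : ℝ))) ⁻¹'
      ((fun x : ℝ => (x : AddCircle (1 : ℝ))) '' C) = C := Set.ext hmem
  rw [h1]
  exact hC

theorem maj_vol [Fact (0 < (1 : ℝ))] (C : Set ℝ) (D : Set (AddCircle (1 : ℝ))) (hD : IsClosed D)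
    (h : ∀ x : ℝ, (x : AddCircle (1 : ℝ)) ∈ D ↔ x ∈ C) :
    AddCircle.haarAddCircle D ≤ MeasureTheory.volume (C ∩ Set.Ico 0 1) := by
  have h1 : AddCircle.haarAddCircle D = MeasureTheory.volume D := by
    rw [AddCircle.volume_eq_smul_haarAddCircle, ENNReal.ofReal_one, one_smul]
  rw [h1, AddCircle.add_projection_respects_measure 1 0 hD.measurableSet]
  have h2 : (QuotientAddGroup.mk ⁻¹' D ∩ Set.Ioc (0 : ℝ) (0 + 1)) ⊆
      (C ∩ Set.Ico 0 1) ∪ {1} := by
    rintro x ⟨hx, hx0, hx1⟩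
    rw [zero_add] at hx1
    rcases hx1.lt_or_eq with hx2 | hx2
    · exact Or.inl ⟨(h x).1 hx, hx0.le, hx2⟩
    · exact Or.inr hx2
  refine (MeasureTheory.measure_mono h2).trans ((MeasureTheory.measure_union_le _ _).trans ?_)
  rw [Real.volume_singleton, add_zero]

theorem maj_int_fourier [Fact (0 < (1 : ℝ))] (l : ℤ) :
    ∫ y : AddCircle (1 : ℝ), fourier l y ∂AddCircle.haarAddCircle = if l = 0 then 1 else 0 := by
  have h1 := congrFun (fourierCoeff_fourier (T := 1) l) 0
  rw [fourierCoeff] at h1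
  simp only [neg_zero, fourier_zero, one_smul] at h1
  rw [h1, Pi.single_apply]
  simp only [eq_comm]

/-- a trigonometric polynomial on the circle is an explicit sum, and its mean is `c 0` -/
theorem maj_weier [Fact (0 < (1 : ℝ))] (G : C(AddCircle (1 : ℝ), ℂ)) (δ : ℝ) (hδ : 0 < δ) :
    ∃ (L : ℕ) (c : ℤ → ℂ),
      (∀ x : ℝ, ‖G (x : AddCircle (1 : ℝ)) - ∑ l ∈ Icc (-(L : ℤ)) L, c l * ex (l * x)‖ ≤ δ) ∧
      ‖(∫ y : AddCircle (1 : ℝ), G y ∂AddCircle.haarAddCircle) - c 0‖ ≤ δ := by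
  have h1 : G ∈ closure ((Submodule.span ℂ (Set.range (@fourier (1 : ℝ))) :
      Submodule ℂ C(AddCircle (1 : ℝ), ℂ)) : Set C(AddCircle (1 : ℝ), ℂ)) := by
    rw [← Submodule.topologicalClosure_coe, span_fourier_closure_eq_top]
    trivial
  obtain ⟨K, hK, hd⟩ := Metric.mem_closure_iff.1 h1 δ hδ
  obtain ⟨c, hc⟩ := Finsupp.mem_span_range_iff_exists_finsupp.1 hK
  obtain ⟨L, hL⟩ : ∃ L : ℕ, ∀ l ∈ c.support, |l| ≤ (L : ℤ) := by
    refine ⟨∑ l ∈ c.support, l.natAbs, fun l hl => ?_⟩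
    have := Finset.single_le_sum (f := fun l : ℤ => l.natAbs) (fun _ _ => Nat.zero_le _) hl
    rw [Int.abs_eq_natAbs]
    exact_mod_cast this
  have hsub : c.support ⊆ Icc (-(L : ℤ)) L := by
    intro l hl
    have := hL l hl
    rw [abs_le] at this
    exact Finset.mem_Icc.2 this
  have hKy : ∀ y, K y = ∑ l ∈ Icc (-(L : ℤ)) L, c l * fourier l y := by
    intro y
    rw [← hc, Finsupp.sum, ContinuousMap.coe_sum, Finset.sum_apply]
    refine (Finset.sum_subset hsub ?_).trans ?_
    · intro l _ hl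
      rw [Finsupp.notMem_support_iff.1 hl, zero_smul, ContinuousMap.zero_apply]
    · exact Finset.sum_congr rfl fun l _ => by rw [ContinuousMap.smul_apply, smul_eq_mul]
  have hpt : ∀ y, ‖G y - K y‖ ≤ δ := by
    intro y
    rw [← dist_eq_norm]
    exact (ContinuousMap.dist_apply_le_dist _).trans hd.le
  have hint : ∀ f : C(AddCircle (1 : ℝ), ℂ), MeasureTheory.Integrable (fun y => f y)
      (AddCircle.haarAddCircle (T := 1)) := fun f =>
    f.continuous.integrable_of_hasCompactSupport (HasCompactSupport.of_compactSpace _)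
  refine ⟨L, c, fun x => ?_, ?_⟩
  · have h2 := hpt (x : AddCircle (1 : ℝ))
    rw [hKy] at h2
    simpa only [maj_fourier] using h2
  · have h3 : ∫ y : AddCircle (1 : ℝ), K y ∂AddCircle.haarAddCircle = c 0 := by
      simp only [hKy]
      rw [MeasureTheory.integral_finsetSum _ fun l _ => (hint (fourier l)).const_mul _]
      simp only [MeasureTheory.integral_const_mul, maj_int_fourier, mul_ite, mul_one, mul_zero]
      rw [Finset.sum_ite_eq', if_pos]
      rw [Finset.mem_Icc]
      omega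
    rw [← h3, ← MeasureTheory.integral_sub (hint G) (hint K)]
    refine (MeasureTheory.norm_integral_le_of_norm_le_const
      (MeasureTheory.ae_of_all _ hpt)).trans (le_of_eq ?_)
    rw [MeasureTheory.probReal_univ, mul_one]

/-- A trigonometric majorant of the indicator of a neighbourhood of a small closed periodic set. Proof: the closed sets
`C_n = {x : dist(x, C) ≤ 1/n}` decrease to `C`, so for some `n` `vol (C_n ∩ [0,1)) ≤ v + δ/4` (if `C` is empty take the constant `δ`); the continuous periodic function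
`g x = max 0 (2 - 2 n dist(x, C)) ∧ 1` is `1` for `dist(x, C) ≤ 1/(2n)` and has mean at most `v + δ/4`; Weierstrass (`span_fourier_closure_eq_top`) gives a real
trigonometric polynomial `p` with `|p - g| ≤ δ/8` (take the real part of an approximation); `T = p + δ/8`, and add `δ/8` to have `T ≥ 1` near `C`. -/
theorem exists_maj (C : Set ℝ) (hC : IsClosed C) (hper : ∀ x ∈ C, ∀ z : ℤ, x + z ∈ C) (v δ : ℝ) (hv : 0 ≤ v) (hδ : 0 < δ)
    (hvol : MeasureTheory.volume (C ∩ Set.Ico 0 1) ≤ ENNReal.ofReal v) :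
    ∃ (L : ℕ) (c : ℤ → ℂ) (T : ℝ → ℝ) (c₀ : ℝ), TM L c T c₀ ∧ c₀ ≤ v + δ ∧ ∃ ρ : ℝ, 0 < ρ ∧ ∀ x : ℝ, (∃ y ∈ C, |x - y| ≤ ρ) → 1 ≤ T x := by
  have : Fact (0 < (1 : ℝ)) := ⟨one_pos⟩
  obtain ⟨D, hD, hDC⟩ := maj_closed C hC hper
  have hμ : AddCircle.haarAddCircle D ≤ ENNReal.ofReal v := (maj_vol C D hD hDC).trans hvol
  have ht := tendsto_measure_cthickening_of_isClosed (μ := AddCircle.haarAddCircle (T := 1))
    (s := D) ⟨1, one_pos, MeasureTheory.measure_ne_top _ _⟩ hD
  have hlt : AddCircle.haarAddCircle D < ENNReal.ofReal (v + δ / 4) :=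
    lt_of_le_of_lt hμ ((ENNReal.ofReal_lt_ofReal_iff (by linarith)).2 (by linarith))
  obtain ⟨r, hr0, hr⟩ := Metric.eventually_nhds_iff.1 (ht.eventually_lt_const hlt)
  obtain ⟨ρ, hρ, hρr⟩ : ∃ ρ : ℝ, 0 < ρ ∧ ρ + ρ < r := ⟨r / 4, by linarith, by linarith⟩
  have hth : AddCircle.haarAddCircle (Metric.cthickening (ρ + ρ) D) < ENNReal.ofReal (v + δ / 4) := by
    apply hr
    rw [Real.dist_eq, sub_zero, abs_of_pos (by linarith)]
    exact hρr
  obtain ⟨g, hgc, hg0, hg1, hgo, hgz⟩ : ∃ g : AddCircle (1 : ℝ) → ℝ, Continuous g ∧ (∀ y, 0 ≤ g y) ∧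
      (∀ y, g y ≤ 1) ∧ (∀ y ∈ Metric.cthickening ρ D, g y = 1) ∧
      (∀ y, y ∉ Metric.cthickening (ρ + ρ) D → g y = 0) := by
    refine ⟨fun y => ((thickenedIndicator hρ (Metric.cthickening ρ D) y : NNReal) : ℝ),
      NNReal.continuous_coe.comp (thickenedIndicator hρ (Metric.cthickening ρ D)).continuous,
      fun y => NNReal.coe_nonneg _, fun y => ?_, fun y hy => ?_, fun y hy => ?_⟩
    · exact_mod_cast thickenedIndicator_le_one hρ _ y
    · simp only
      rw [thickenedIndicator_one hρ _ hy, NNReal.coe_one]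
    · simp only
      rw [thickenedIndicator_zero hρ, NNReal.coe_zero]
      intro h
      exact hy (Metric.thickening_subset_cthickening _ _
        (Metric.thickening_cthickening_subset ρ hρ.le D h))
  -- the mean of `g`
  have hgint : ∫ y, g y ∂(AddCircle.haarAddCircle (T := 1)) ≤ v + δ / 4 := by
    have h1 : ∫ y, g y ∂(AddCircle.haarAddCircle (T := 1)) ≤
        ∫ y, (Metric.cthickening (ρ + ρ) D).indicator (fun _ => (1 : ℝ)) y
          ∂(AddCircle.haarAddCircle (T := 1)) := by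
      refine MeasureTheory.integral_mono
        (hgc.integrable_of_hasCompactSupport (HasCompactSupport.of_compactSpace _))
        ((MeasureTheory.integrable_const _).indicator Metric.isClosed_cthickening.measurableSet)
        fun y => ?_
      by_cases hy : y ∈ Metric.cthickening (ρ + ρ) D
      · rw [Set.indicator_of_mem hy]
        exact hg1 y
      · rw [Set.indicator_of_notMem hy, hgz y hy]
    refine h1.trans ?_
    rw [MeasureTheory.integral_indicator_const _ Metric.isClosed_cthickening.measurableSet,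
      smul_eq_mul, mul_one]
    exact ENNReal.toReal_le_of_le_ofReal (by linarith) hth.le
  have hgint0 : 0 ≤ ∫ y, g y ∂(AddCircle.haarAddCircle (T := 1)) :=
    MeasureTheory.integral_nonneg hg0
  obtain ⟨L, c, hLc, hc0⟩ := maj_weier ⟨fun y => (g y : ℂ), Complex.continuous_ofReal.comp hgc⟩
    (δ / 8) (by linarith)
  simp only [ContinuousMap.coe_mk] at hLc hc0
  rw [integral_complex_ofReal] at hc0
  -- the real part
  set P : ℝ → ℂ := fun x => ∑ l ∈ Icc (-(L : ℤ)) L, c l * ex (l * x) with hP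
  have hre : ∀ x : ℝ, |g (x : AddCircle (1 : ℝ)) - (P x).re| ≤ δ / 8 := by
    intro x
    have h1 := (Complex.abs_re_le_norm _).trans (hLc x)
    rwa [Complex.sub_re, Complex.ofReal_re] at h1
  have hc0re : |(∫ y, g y ∂(AddCircle.haarAddCircle (T := 1))) - (c 0).re| ≤ δ / 8 := by
    have h1 := (Complex.abs_re_le_norm _).trans hc0
    rwa [Complex.sub_re, Complex.ofReal_re] at h1
  have hconj : ∀ x, (starRingEnd ℂ) (P x) =
      ∑ l ∈ Icc (-(L : ℤ)) L, (starRingEnd ℂ) (c (-l)) * ex (l * x) := by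
    intro x
    rw [hP]
    simp only
    rw [map_sum]
    refine Finset.sum_nbij' (fun l => -l) (fun l => -l) ?_ ?_ ?_ ?_ ?_
    · intro l hl
      rw [Finset.mem_Icc] at hl ⊢
      omega
    · intro l hl
      rw [Finset.mem_Icc] at hl ⊢
      omega
    · intro l _
      exact neg_neg l
    · intro l _
      exact neg_neg l
    · intro l _
      rw [map_mul, neg_neg, ← ex_neg]
      push_cast
      rw [neg_mul]
  refine ⟨L, fun l => (c l + (starRingEnd ℂ) (c (-l))) / 2 + if l = 0 then ((δ / 4 : ℝ) : ℂ) else 0,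
    fun x => (P x).re + δ / 4, (c 0).re + δ / 4, ⟨?_, ?_, ?_, ?_⟩, ?_, ρ, hρ, ?_⟩
  · intro x
    have h1 : (((P x).re : ℝ) : ℂ) = (P x + (starRingEnd ℂ) (P x)) / 2 := Complex.re_eq_add_conj _
    rw [Complex.ofReal_add, h1, hconj, hP]
    simp only
    rw [← Finset.sum_add_distrib, Finset.sum_div]
    simp only [add_mul, ite_mul, zero_mul, Finset.sum_add_distrib]
    rw [Finset.sum_ite_eq', if_pos (by rw [Finset.mem_Icc]; omega), Int.cast_zero, zero_mul,
      ex_zero, mul_one]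
    congr 1
    refine Finset.sum_congr rfl fun l _ => ?_
    ring
  · intro x
    have h1 := abs_le.1 (hre x)
    have h2 := hg0 (x : AddCircle (1 : ℝ))
    linarith
  · simp only [neg_zero, if_true]
    rw [Complex.ofReal_add, Complex.re_eq_add_conj]
  · have h1 := abs_le.1 hc0re
    linarith
  · have h1 := abs_le.1 hc0re
    linarith
  · rintro x ⟨y, hy, hxy⟩
    have h1 : (x : AddCircle (1 : ℝ)) ∈ Metric.cthickening ρ D := by
      refine Metric.mem_cthickening_of_dist_le _ (y : AddCircle (1 : ℝ)) ρ D ((hDC y).2 hy) ?_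
      rw [dist_eq_norm, ← AddCircle.coe_sub]
      refine (le_trans ?_ hxy)
      have h2 := round_le (x - y) 0
      rw [Int.cast_zero, sub_zero] at h2
      exact (le_of_eq UnitAddCircle.norm_eq).trans h2
    have h2 := abs_le.1 (hre x)
    rw [hgo _ h1] at h2
    linarith

end Pool.Agent.Lib.MP_3e612f_nt.NF
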