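import Pool.Agent.Lib.MP_3e612f_nt.NF.WeylAll

/-! Complete sums over multiples: power saving for degree at least two (paper, Part U: U-CS). -/

set_option autoImplicit false

namespace Pool.Agent.Lib.MP_3e612f_nt.NF

open Finset
open Pool.Agent.Lib.MP_3e612f_nt.MR (mu ex)

/-- `t ≥ 2`. Choose `η` small (depending on `t` and the exponent `A` of `weyl t`). If `d > r^η` the trivial bound `r/d` suffices. If `d ≤ r^η` use `weyl` with `N = r/d`, `K = r^η`, and the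
polynomial `(l b d^t / r) w^t`: otherwise there is `1 ≤ k ≤ r^{Aη}` with `dZ(k l b d^t/r) ≤ r^{Aη} (d/r)^t < 1/r`, so `r` divides `k l b d^t`, hence `k l d^t`, which is not zero and at most `r^{Aη} L r^{tη} < r`. -/
theorem cs_inner (t : ℕ) (ht : 2 ≤ t) (L : ℕ) : ∃ η : ℝ, 0 < η ∧ ∃ r₀ : ℕ, ∀ r : ℕ, r₀ ≤ r → ∀ b : ℤ, IsCoprime b (r : ℤ) → ∀ l : ℤ, l ≠ 0 → |l| ≤ L →
    ∀ d ∈ r.divisors, ‖∑ w ∈ range (r / d), ex (l * (b * ((d * w : ℕ) : ℝ) ^ t / r))‖ ≤ (r : ℝ) ^ (1 - η) := by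
  obtain ⟨A, hA⟩ := weyl t (by omega)
  obtain ⟨B, hB⟩ : ∃ B : ℕ, B = 2 * (A + t + 2) := ⟨_, rfl⟩
  have hB0 : 0 < B := by omega
  have hBr : (0 : ℝ) < B := by exact_mod_cast hB0
  refine ⟨1 / B, by positivity, 2 ^ B + L ^ 2 + 1, ?_⟩
  intro r hr b hb l hl hlL d hd
  have hdr : d ∣ r := Nat.dvd_of_mem_divisors hd
  have hr0 : 0 < r := by
    have h1 : 0 < 2 ^ B + L ^ 2 + 1 := Nat.succ_pos _
    exact lt_of_lt_of_le h1 hr
  have hrR : (0 : ℝ) < r := by exact_mod_cast hr0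
  have hd0 : 0 < d := Nat.pos_of_dvd_of_pos hdr hr0
  have hdR : (0 : ℝ) < d := by exact_mod_cast hd0
  obtain ⟨K, hK⟩ : ∃ K : ℝ, K = (r : ℝ) ^ (1 / (B : ℝ)) := ⟨_, rfl⟩
  have hK0 : 0 < K := by
    rw [hK]
    exact Real.rpow_pos_of_pos hrR _
  have hKB : K ^ B = r := by
    rw [hK, ← Real.rpow_natCast, ← Real.rpow_mul hrR.le, one_div, inv_mul_cancel₀ hBr.ne', Real.rpow_one]
  have hK2 : 2 ≤ K := by
    by_contra hc
    have hc' : K < 2 := not_le.1 hc
    have h1 : K ^ B < 2 ^ B := pow_lt_pow_left₀ hc' hK0.le hB0.ne'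
    rw [hKB] at h1
    have h2 : ((2 ^ B + L ^ 2 + 1 : ℕ) : ℝ) ≤ r := by exact_mod_cast hr
    push_cast at h2
    have h3 : (0 : ℝ) ≤ (L : ℝ) ^ 2 := by positivity
    linarith
  have hK1 : 1 ≤ K := by linarith
  have hpow : (r : ℝ) ^ (1 - 1 / (B : ℝ)) = r / K := by
    rw [Real.rpow_sub hrR, Real.rpow_one, hK]
  rw [hpow]
  obtain ⟨N, hN⟩ : ∃ N : ℕ, N = r / d := ⟨_, rfl⟩
  rw [← hN]
  have hNd : (N : ℝ) = r / d := by
    rw [hN, Nat.cast_div hdr hdR.ne']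
  have hNr : (N : ℝ) ≤ r := by
    rw [hNd]
    have : (1 : ℝ) ≤ d := by exact_mod_cast hd0
    exact div_le_self hrR.le this
  rcases lt_or_ge K (d : ℝ) with hKd | hKd
  · calc ‖∑ w ∈ range N, ex (l * (b * ((d * w : ℕ) : ℝ) ^ t / r))‖ ≤ ∑ w ∈ range N, ‖ex (l * (b * ((d * w : ℕ) : ℝ) ^ t / r))‖ := norm_sum_le _ _
      _ = N := by simp [norm_ex]
      _ = r / d := hNd
      _ ≤ r / K := div_le_div_of_nonneg_left hrR.le hK0 hKd.le
  · by_contra hcon
    have hcon' : (r : ℝ) / K < ‖∑ w ∈ range N, ex (l * (b * ((d * w : ℕ) : ℝ) ^ t / r))‖ := not_le.1 hcon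
    obtain ⟨Q, hQ⟩ : ∃ Q : Polynomial ℝ, Q = Polynomial.C ((l : ℝ) * b * (d : ℝ) ^ t / r) * Polynomial.X ^ t := ⟨_, rfl⟩
    have hQd : Q.natDegree ≤ t := by
      rw [hQ]
      exact Polynomial.natDegree_C_mul_X_pow_le _ _
    have hQc : Q.coeff t = (l : ℝ) * b * (d : ℝ) ^ t / r := by
      rw [hQ, Polynomial.coeff_C_mul, Polynomial.coeff_X_pow_self, mul_one]
    have hQe : ∀ w : ℕ, Q.eval (w : ℝ) = l * (b * ((d * w : ℕ) : ℝ) ^ t / r) := by
      intro w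
      rw [hQ, Polynomial.eval_mul, Polynomial.eval_C, Polynomial.eval_pow, Polynomial.eval_X]
      push_cast
      rw [mul_pow]
      ring
    have hsum : ∑ n ∈ range N, ex (Q.eval (n : ℝ)) = ∑ w ∈ range N, ex (l * (b * ((d * w : ℕ) : ℝ) ^ t / r)) :=
      sum_congr rfl fun w _ => by rw [hQe]
    have hNK : K ^ (B - 1) ≤ N := by
      have h1 : K ^ (B - 1) * K = r := by
        rw [← pow_succ, Nat.sub_add_cancel hB0, hKB]
      have h2 : (r : ℝ) / K ≤ N := by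
        rw [hNd]
        exact div_le_div_of_nonneg_left hrR.le hdR hKd
      have h3 : K ^ (B - 1) = r / K := by
        rw [eq_div_iff hK0.ne', h1]
      rw [h3]
      exact h2
    have hN0 : (0 : ℝ) < N := lt_of_lt_of_le (by positivity) hNK
    have hNA : K ^ A ≤ (N : ℝ) := (pow_le_pow_right₀ hK1 (by omega)).trans hNK
    have hNS : (N : ℝ) ≤ K * ‖∑ n ∈ range N, ex (Q.eval (n : ℝ))‖ := by
      rw [hsum]
      calc (N : ℝ) ≤ r := hNr
        _ = K * (r / K) := by field_simp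
        _ ≤ K * ‖∑ w ∈ range N, ex (l * (b * ((d * w : ℕ) : ℝ) ^ t / r))‖ := mul_le_mul_of_nonneg_left hcon'.le hK0.le
    obtain ⟨k, hk1, hkA, hkd⟩ := hA K hK2 N hNA Q hQd hNS
    rw [hQc] at hkd
    -- the distance is less than `1/r`
    have hlt : dZ (k * ((l : ℝ) * b * (d : ℝ) ^ t / r)) * r < 1 := by
      have h1 : K ^ (A + B) < (N : ℝ) ^ t := by
        calc K ^ (A + B) < K ^ ((B - 1) * t) := by
              refine pow_lt_pow_right₀ (by linarith) ?_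
              have : (B - 1) * 2 ≤ (B - 1) * t := Nat.mul_le_mul_left _ ht
              omega
          _ = (K ^ (B - 1)) ^ t := pow_mul _ _ _
          _ ≤ (N : ℝ) ^ t := pow_le_pow_left₀ (by positivity) hNK t
      have hNt : (0 : ℝ) < (N : ℝ) ^ t := by positivity
      calc dZ (k * ((l : ℝ) * b * (d : ℝ) ^ t / r)) * r ≤ K ^ A / (N : ℝ) ^ t * r := mul_le_mul_of_nonneg_right hkd hrR.le
        _ = K ^ (A + B) / (N : ℝ) ^ t := by
            rw [pow_add, hKB]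
            ring
        _ < 1 := by
            rw [div_lt_one hNt]
            exact h1
    obtain ⟨z, hz⟩ := exists_int (k * ((l : ℝ) * b * (d : ℝ) ^ t / r))
    rw [← hz] at hlt
    have hint : ((k : ℤ) * (l * b * (d : ℤ) ^ t) - z * r : ℤ) = 0 := by
      have h1 : |(((k : ℤ) * (l * b * (d : ℤ) ^ t) - z * r : ℤ) : ℝ)| < 1 := by
        have h2 : (((k : ℤ) * (l * b * (d : ℤ) ^ t) - z * r : ℤ) : ℝ) = (k * ((l : ℝ) * b * (d : ℝ) ^ t / r) - z) * r := by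
          push_cast
          field_simp
        rw [h2, abs_mul, abs_of_pos hrR]
        exact hlt
      have h3 : |((k : ℤ) * (l * b * (d : ℤ) ^ t) - z * r : ℤ)| < 1 := by exact_mod_cast h1
      exact Int.abs_lt_one_iff.1 h3
    have hdvd : (r : ℤ) ∣ (k : ℤ) * l * (d : ℤ) ^ t := by
      have h1 : (r : ℤ) ∣ b * ((k : ℤ) * l * (d : ℤ) ^ t) := by
        refine ⟨z, ?_⟩
        linear_combination hint
      exact hb.symm.dvd_of_dvd_mul_left h1
    have hne : (k : ℤ) * l * (d : ℤ) ^ t ≠ 0 := by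
      have h1 : (k : ℤ) ≠ 0 := by
        have : k ≠ 0 := by omega
        exact_mod_cast this
      have h2 : (d : ℤ) ≠ 0 := by
        have : d ≠ 0 := by omega
        exact_mod_cast this
      exact mul_ne_zero (mul_ne_zero h1 hl) (pow_ne_zero _ h2)
    have hle : (r : ℤ) ≤ |(k : ℤ) * l * (d : ℤ) ^ t| := Int.le_of_dvd (abs_pos.2 hne) ((dvd_abs _ _).2 hdvd)
    have hleR : (r : ℝ) ≤ k * |(l : ℝ)| * (d : ℝ) ^ t := by
      have h1 : (r : ℝ) ≤ |(((k : ℤ) * l * (d : ℤ) ^ t : ℤ) : ℝ)| := by exact_mod_cast hle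
      have h2 : |(((k : ℤ) * l * (d : ℤ) ^ t : ℤ) : ℝ)| = k * |(l : ℝ)| * (d : ℝ) ^ t := by
        push_cast
        rw [abs_mul, abs_mul, abs_of_nonneg (Nat.cast_nonneg k : (0 : ℝ) ≤ (k : ℝ)),
          abs_of_nonneg (pow_nonneg (Nat.cast_nonneg d) t : (0 : ℝ) ≤ (d : ℝ) ^ t)]
      rw [← h2]
      exact h1
    have hlR : |(l : ℝ)| ≤ L := by exact_mod_cast hlL
    have hLK : (L : ℝ) < K ^ (A + t + 2) := by
      have h1 : (L : ℝ) ^ 2 < (K ^ (A + t + 2)) ^ 2 := by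
        rw [← pow_mul, mul_comm (A + t + 2) 2, ← hB, hKB]
        have h2 : ((2 ^ B + L ^ 2 + 1 : ℕ) : ℝ) ≤ r := by exact_mod_cast hr
        push_cast at h2
        have h3 : (0 : ℝ) ≤ (2 : ℝ) ^ B := by positivity
        linarith
      exact lt_of_pow_lt_pow_left₀ 2 (by positivity) h1
    have hfin : (k : ℝ) * |(l : ℝ)| * (d : ℝ) ^ t < r := by
      calc (k : ℝ) * |(l : ℝ)| * (d : ℝ) ^ t ≤ K ^ A * L * K ^ t := by
            refine mul_le_mul (mul_le_mul hkA hlR (abs_nonneg _) (by positivity)) (pow_le_pow_left₀ hdR.le hKd t) (by positivity) (by positivity)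
        _ = L * K ^ (A + t) := by
            rw [pow_add]
            ring
        _ < K ^ (A + t + 2) * K ^ (A + t) := mul_lt_mul_of_pos_right hLK (by positivity)
        _ = K ^ (A + t + 2 + (A + t)) := (pow_add _ _ _).symm
        _ ≤ K ^ B := pow_le_pow_right₀ hK1 (by omega)
        _ = r := hKB
    linarith

end Pool.Agent.Lib.MP_3e612f_nt.NF
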