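import Pool.Agent.Lib.MP_3e612f_nt.NF.U.CSA
import Pool.Agent.Lib.MP_3e612f_nt.NF.U.CSB
import Pool.Agent.Lib.MP_14ee70_nt.Div

/-! Complete sums over the units (paper, Part U: U-CS). -/

set_option autoImplicit false

namespace Pool.Agent.Lib.MP_3e612f_nt.NF

open Finset
open Pool.Agent.Lib.MP_3e612f_nt.MR (mu ex)

theorem cs_mob_norm (r : ℕ) (hr : 1 ≤ r) (f : ℕ → ℂ) :
    ‖∑ u ∈ (range r).filter (fun u => Nat.Coprime u r), f u‖ ≤ ∑ d ∈ r.divisors, ‖∑ w ∈ range (r / d), f (d * w)‖ := by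
  rw [cs_mob r hr f]
  refine (norm_sum_le _ _).trans (Finset.sum_le_sum fun d _ => ?_)
  rw [norm_mul]
  have h1 : ‖((ArithmeticFunction.moebius d : ℤ) : ℂ)‖ ≤ 1 := by
    rw [Complex.norm_intCast]
    have := ArithmeticFunction.abs_moebius_le_one (n := d)
    exact_mod_cast this
  exact mul_le_of_le_one_left (norm_nonneg _) h1

/-- a complete geometric sum -/
theorem cs_geom (m : ℕ) (hm : 1 ≤ m) (b l : ℤ) (hb : IsCoprime b (m : ℤ)) (hl : ¬ (m : ℤ) ∣ l) :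
    ∑ w ∈ range m, ex (w * ((l * b : ℤ) / (m : ℝ))) = 0 := by
  have hm' : (m : ℝ) ≠ 0 := by exact_mod_cast (by omega : m ≠ 0)
  have h1 : ex ((l * b : ℤ) / (m : ℝ)) ≠ 1 := by
    intro h2
    have h3 := four_dZ_le ((l * b : ℤ) / (m : ℝ))
    rw [h2, sub_self, norm_zero] at h3
    have h4 : dZ ((l * b : ℤ) / (m : ℝ)) = 0 := by
      have := dZ_nonneg ((l * b : ℤ) / (m : ℝ))
      linarith
    obtain ⟨z, hz⟩ := (dZ_eq_zero_iff _).1 h4
    rw [div_eq_iff hm'] at hz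
    have h5 : l * b = z * m := by exact_mod_cast hz
    apply hl
    have h6 : (m : ℤ) ∣ b * l := ⟨z, by rw [mul_comm b l, h5, mul_comm]⟩
    exact (hb.symm).dvd_of_dvd_mul_left h6
  have h2 : ∀ w ∈ range m, ex (w * ((l * b : ℤ) / (m : ℝ))) = ex ((l * b : ℤ) / (m : ℝ)) ^ w := fun w _ => ex_nat_mul w _
  rw [Finset.sum_congr rfl h2, geom_sum_eq h1, ← ex_nat_mul]
  have h3 : (m : ℝ) * ((l * b : ℤ) / (m : ℝ)) = ((l * b : ℤ) : ℝ) := by
    field_simp
  rw [h3, ex_int, sub_self, zero_div]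

/-- `t = 1`: by `cs_mob` the inner sum over `w < r/d` of `e(l b d w/r)` vanishes unless `r/d` divides `l b`, hence `l`; so the total is at most `∑_{m | l} m ≤ L^2`. -/
theorem cs_one (L : ℕ) : ∀ r : ℕ, 1 ≤ r → ∀ b : ℤ, IsCoprime b (r : ℤ) → ∀ l : ℤ, l ≠ 0 → |l| ≤ L →
    ‖∑ u ∈ (range r).filter (fun u => Nat.Coprime u r), ex (l * (b * (u : ℝ) / r))‖ ≤ (L : ℝ) ^ 2 := by
  intro r hr b hb l hl hL
  refine (cs_mob_norm r hr (fun u => ex (l * (b * (u : ℝ) / r)))).trans ?_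
  have h1 : ∀ d ∈ r.divisors, ‖∑ w ∈ range (r / d), ex (l * (b * ((d * w : ℕ) : ℝ) / r))‖ ≤
      (fun m : ℕ => if m ∣ l.natAbs then (m : ℝ) else 0) (r / d) := by
    intro d hd
    have hdr : d ∣ r := Nat.dvd_of_mem_divisors hd
    obtain ⟨m, hm⟩ := hdr
    have hd0 : 0 < d := Nat.pos_of_mem_divisors hd
    have hm0 : 1 ≤ m := by
      rcases Nat.eq_zero_or_pos m with h | h
      · rw [h] at hm
        omega
      · exact h
    have hmd : r / d = m := by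
      rw [hm]
      exact Nat.mul_div_cancel_left m hd0
    rw [hmd]
    simp only
    split_ifs with h2
    · refine (norm_sum_le _ _).trans ?_
      rw [Finset.sum_congr rfl (fun w _ => norm_ex _), Finset.sum_const, card_range, nsmul_eq_mul, mul_one]
    · have h3 : ∑ w ∈ range m, ex (l * (b * ((d * w : ℕ) : ℝ) / r)) = 0 := by
        rw [← cs_geom m hm0 b l (hb.of_isCoprime_of_dvd_right ⟨(d : ℤ), by rw [hm]; push_cast; ring⟩) (fun h4 => h2 (Int.natCast_dvd.1 h4))]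
        refine Finset.sum_congr rfl fun w _ => ?_
        congr 1
        rw [hm]
        have hd' : (d : ℝ) ≠ 0 := by exact_mod_cast hd0.ne'
        have hm' : (m : ℝ) ≠ 0 := by exact_mod_cast (by omega : m ≠ 0)
        push_cast
        field_simp
      rw [h3, norm_zero]
  refine (Finset.sum_le_sum h1).trans ?_
  rw [Nat.sum_div_divisors r (fun m : ℕ => if m ∣ l.natAbs then (m : ℝ) else 0), ← Finset.sum_filter]
  have hlpos : 0 < l.natAbs := Int.natAbs_pos.2 hl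
  have hlL : l.natAbs ≤ L := by
    rw [Int.abs_eq_natAbs] at hL
    exact_mod_cast hL
  have h5 : (r.divisors).filter (fun m => m ∣ l.natAbs) ⊆ Icc 1 L := by
    intro m hm
    rw [Finset.mem_filter] at hm
    rw [Finset.mem_Icc]
    exact ⟨Nat.pos_of_mem_divisors hm.1, (Nat.le_of_dvd hlpos hm.2).trans hlL⟩
  refine (Finset.sum_le_sum_of_subset_of_nonneg h5 fun m _ _ => Nat.cast_nonneg m).trans ?_
  refine (Finset.sum_le_card_nsmul _ _ (L : ℝ) fun m hm => by exact_mod_cast (Finset.mem_Icc.1 hm).2).trans ?_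
  rw [Nat.card_Icc, Nat.add_sub_cancel, nsmul_eq_mul, sq]

theorem cs_large (a : ℝ) (ha : 0 < a) (C : ℝ) : ∃ r₀ : ℕ, ∀ r : ℕ, r₀ ≤ r → C ≤ (r : ℝ) ^ a := by
  have h1 := ((tendsto_rpow_atTop ha).comp tendsto_natCast_atTop_atTop).eventually_ge_atTop C
  rw [Filter.eventually_atTop] at h1
  exact h1

/-- U-CS. `t ≥ 2`: `cs_mob`, `cs_inner`: total at most `τ(r) r^{1-η}`, and `φ(r) ≥ r/τ(r)` (`le_totient_mul`), `τ(r) ≤ K r^{η/4}` (`MP_14ee70_nt.card_divisors_le`). `t = 1`: `cs_one` and `φ(r) → ∞`. -/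
theorem cs (t : ℕ) (ht : 1 ≤ t) (L : ℕ) (ε : ℝ) (hε : 0 < ε) : ∃ r₀ : ℕ, ∀ r : ℕ, r₀ ≤ r → ∀ b : ℤ, IsCoprime b (r : ℤ) → ∀ l : ℤ, l ≠ 0 → |l| ≤ L →
    ‖∑ u ∈ (range r).filter (fun u => Nat.Coprime u r), ex (l * (b * (u : ℝ) ^ t / r))‖ ≤ ε * r.totient := by
  rcases Nat.lt_or_ge 1 t with ht2 | ht1
  · obtain ⟨η, hη, r₁, h1⟩ := cs_inner t ht2 L
    obtain ⟨K, hK, h2⟩ := MP14ee70.card_divisors_le (η / 4) (by positivity)
    obtain ⟨r₂, h3⟩ := cs_large (η / 2) (by positivity) (K ^ 2 / ε)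
    refine ⟨max (max r₁ r₂) 1, fun r hr b hb l hl hL => ?_⟩
    have hr1 : r₁ ≤ r := (le_max_left _ _).trans ((le_max_left _ _).trans hr)
    have hr2 : r₂ ≤ r := (le_max_right _ _).trans ((le_max_left _ _).trans hr)
    have hr3 : 1 ≤ r := (le_max_right _ _).trans hr
    have hr0 : (0 : ℝ) < r := by exact_mod_cast hr3
    have h4 := cs_mob_norm r hr3 (fun u => ex (l * (b * (u : ℝ) ^ t / r)))
    have h5 : ∑ d ∈ r.divisors, ‖∑ w ∈ range (r / d), ex (l * (b * ((d * w : ℕ) : ℝ) ^ t / r))‖ ≤ (#r.divisors : ℝ) * (r : ℝ) ^ (1 - η) := by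
      refine (Finset.sum_le_card_nsmul _ _ _ fun d hd => h1 r hr1 b hb l hl hL d hd).trans ?_
      rw [nsmul_eq_mul]
    refine (h4.trans h5).trans ?_
    have h6 : (r : ℝ) ≤ r.totient * (#r.divisors : ℝ) := by exact_mod_cast le_totient_mul r hr3
    have h7 := h2 r (by omega)
    have h8 := h3 r hr2
    obtain ⟨T, hT⟩ : ∃ T : ℝ, T = (#r.divisors : ℝ) := ⟨_, rfl⟩
    rw [← hT] at h6 h7 ⊢
    have hT0 : 0 < T := by
      rw [hT]
      exact_mod_cast Finset.card_pos.2 ⟨1, Nat.one_mem_divisors.2 (by omega)⟩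
    obtain ⟨A, hA⟩ : ∃ A : ℝ, A = (r : ℝ) ^ (η / 2) := ⟨_, rfl⟩
    have hA0 : 0 < A := by
      rw [hA]
      positivity
    rw [← hA, div_le_iff₀ hε] at h8
    have e1 : ((r : ℝ) ^ (η / 4)) ^ 2 * (r : ℝ) ^ (1 - η) * A = r := by
      rw [hA, ← Real.rpow_natCast, ← Real.rpow_mul hr0.le, ← Real.rpow_add hr0, ← Real.rpow_add hr0]
      have : η / 4 * ((2 : ℕ) : ℝ) + (1 - η) + η / 2 = 1 := by
        push_cast
        ring
      rw [this, Real.rpow_one]
    have hP : 0 < (r : ℝ) ^ (1 - η) := by positivity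
    have h9 : T ^ 2 * (r : ℝ) ^ (1 - η) * A ≤ K ^ 2 * r := by
      have h10 : T ^ 2 ≤ (K * (r : ℝ) ^ (η / 4)) ^ 2 := pow_le_pow_left₀ hT0.le h7 2
      calc T ^ 2 * (r : ℝ) ^ (1 - η) * A ≤ (K * (r : ℝ) ^ (η / 4)) ^ 2 * (r : ℝ) ^ (1 - η) * A := by gcongr
        _ = K ^ 2 * (((r : ℝ) ^ (η / 4)) ^ 2 * (r : ℝ) ^ (1 - η) * A) := by ring
        _ = K ^ 2 * r := by rw [e1]
    have h11 : T ^ 2 * (r : ℝ) ^ (1 - η) * A ≤ (ε * r) * A := by
      refine h9.trans ?_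
      have := mul_le_mul_of_nonneg_right h8 hr0.le
      linarith
    have h12 : T ^ 2 * (r : ℝ) ^ (1 - η) ≤ ε * r := le_of_mul_le_mul_right h11 hA0
    have h13 : T * (T * (r : ℝ) ^ (1 - η)) ≤ T * (ε * r.totient) := by
      have := mul_le_mul_of_nonneg_left h6 hε.le
      nlinarith
    exact le_of_mul_le_mul_left h13 hT0
  · have ht' : t = 1 := by omega
    subst ht'
    obtain ⟨K, hK, h2⟩ := MP14ee70.card_divisors_le (1 / 2) (by positivity)
    obtain ⟨r₂, h3⟩ := cs_large (1 / 2) (by positivity) (K * (L : ℝ) ^ 2 / ε)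
    refine ⟨max r₂ 1, fun r hr b hb l hl hL => ?_⟩
    have hr2 : r₂ ≤ r := (le_max_left _ _).trans hr
    have hr3 : 1 ≤ r := (le_max_right _ _).trans hr
    have hr0 : (0 : ℝ) < r := by exact_mod_cast hr3
    have h4 := cs_one L r hr3 b hb l hl hL
    simp only [pow_one]
    refine h4.trans ?_
    have h6 : (r : ℝ) ≤ r.totient * (#r.divisors : ℝ) := by exact_mod_cast le_totient_mul r hr3
    have h7 := h2 r (by omega)
    have h8 := h3 r hr2
    obtain ⟨A, hA⟩ : ∃ A : ℝ, A = (r : ℝ) ^ (1 / 2 : ℝ) := ⟨_, rfl⟩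
    have hA0 : 0 < A := by
      rw [hA]
      positivity
    rw [← hA, div_le_iff₀ hε] at h8
    rw [← hA] at h7
    have e1 : A * A = r := by
      rw [hA, ← Real.rpow_add hr0]
      norm_num
    have hφ : (0 : ℝ) ≤ r.totient := Nat.cast_nonneg _
    have h9 : A * A ≤ (r.totient * K) * A := by
      rw [e1]
      refine h6.trans ?_
      have := mul_le_mul_of_nonneg_left h7 hφ
      linarith
    have h10 : A ≤ r.totient * K := le_of_mul_le_mul_right h9 hA0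
    have h11 : K * (L : ℝ) ^ 2 ≤ K * (ε * r.totient) := by
      refine h8.trans ?_
      have := mul_le_mul_of_nonneg_right h10 hε.le
      linarith
    exact le_of_mul_le_mul_left h11 (by linarith)

end Pool.Agent.Lib.MP_3e612f_nt.NF
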