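import Pool.Agent.Lib.MP_3e612f_nt.NF.U.Trig
import Pool.Agent.Lib.MP_3e612f_nt.NF.U.CS

/-! Averages of `T` over the units and over the positions (paper, Part U: U-Block (2), (3d)). -/

set_option autoImplicit false

namespace Pool.Agent.Lib.MP_3e612f_nt.NF

open Finset
open Pool.Agent.Lib.MP_3e612f_nt.MR (mu ex)

/-- Average over the units modulo `r`: `TM.avg` and `cs` (`e(l (x + τ)) = e(l τ) e(l x)`; the number of units below `r` is `φ(r)`). -/
theorem avg_units (t : ℕ) (ht : 1 ≤ t) {L : ℕ} {c : ℤ → ℂ} {T : ℝ → ℝ} {c₀ : ℝ} (h : TM L c T c₀) : ∃ r₀ : ℕ, ∀ r : ℕ, r₀ ≤ r → ∀ b : ℤ, IsCoprime b (r : ℤ) → ∀ τ : ℝ,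
    ∑ u ∈ (range r).filter (fun u => Nat.Coprime u r), T (b * (u : ℝ) ^ t / r + τ) ≤ 2 * c₀ * r.totient := by
  obtain ⟨κ, hκ, hav⟩ := h.avg
  obtain ⟨r₀, hr₀⟩ := cs t ht L κ hκ
  refine ⟨r₀, fun r hr b hb τ => ?_⟩
  have hcard : #((range r).filter (fun u => Nat.Coprime u r)) = r.totient := by
    rw [Nat.totient_eq_card_coprime]
    congr 1
    exact filter_congr fun u _ => Nat.coprime_comm
  have h1 := hav ((range r).filter (fun u => Nat.Coprime u r)) (fun u => b * (u : ℝ) ^ t / r + τ) (fun l hl hlL => by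
    have h2 : ∀ u ∈ (range r).filter (fun u => Nat.Coprime u r),
        ex (l * (b * (u : ℝ) ^ t / r + τ)) = ex (l * τ) * ex (l * (b * (u : ℝ) ^ t / r)) := by
      intro u _
      rw [← ex_add]
      congr 1
      ring
    rw [sum_congr rfl h2, ← mul_sum, norm_mul, norm_ex, one_mul, hcard]
    exact hr₀ r hr b hb l hl hlL)
  rw [hcard] at h1
  exact h1

/-- a number of absolute value at most `1/2` is at distance its absolute value from the integers -/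
theorem abs_le_dZ_of_le_half {y : ℝ} (hy : |y| ≤ 1 / 2) : |y| ≤ dZ y := by
  obtain ⟨z, hz⟩ := exists_int y
  rw [← hz]
  by_cases h0 : z = 0
  · rw [h0, Int.cast_zero, sub_zero]
  · have h1 : (1 : ℝ) ≤ |(z : ℝ)| := by
      have : (1 : ℤ) ≤ |z| := Int.one_le_abs h0
      exact_mod_cast this
    have h2 : |(z : ℝ)| ≤ |y| + |y - z| := by
      have h3 : (z : ℝ) = y - (y - z) := by ring
      calc |(z : ℝ)| = |y - (y - z)| := by rw [← h3]
        _ ≤ |y| + |y - z| := abs_sub _ _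
    linarith

/-- Average over the positions `X + i ℓ`: `TM.avg` and `weyl'` for the polynomial `l (τ + θ (X + ℓ x)^t)` with leading coefficient `l θ ℓ^t`: a large sum gives `1 ≤ k ≤ K` with
`dZ(k l θ ℓ^t) ≤ K/M^t`; as `|k l θ ℓ^t| ≤ K L ρ ≤ 1/2` (choose `ρ`) this is `|k l θ ℓ^t| ≥ |θ| ℓ^t`, so `|θ| (ℓ M)^t ≤ K`, contradiction to `|θ| X^t ≥ C₁ = K + 1`. -/
theorem avg_space (t : ℕ) (ht : 1 ≤ t) {L : ℕ} {c : ℤ → ℂ} {T : ℝ → ℝ} {c₀ : ℝ} (h : TM L c T c₀) : ∃ ρ : ℝ, 0 < ρ ∧ ∃ C₁ : ℝ, 1 ≤ C₁ ∧ ∀ (X ℓ M : ℕ) (θ τ : ℝ), 1 ≤ M →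
    X ≤ ℓ * M → |θ| * (ℓ : ℝ) ^ t ≤ ρ → C₁ ≤ |θ| * (X : ℝ) ^ t → ∑ i ∈ range M, T (τ + θ * ((X : ℝ) + i * ℓ) ^ t) ≤ 2 * c₀ * M := by
  obtain ⟨κ, hκ, hav⟩ := h.avg
  obtain ⟨K, hK1, hK⟩ := weyl' t ht κ hκ
  have hK0 : (1 : ℝ) ≤ K := by exact_mod_cast hK1
  refine ⟨1 / (2 * (K * (L + 1))), by positivity, K + 1, by linarith, fun X ℓ M θ τ hM hXM hρ hC => ?_⟩
  have hM0 : (1 : ℝ) ≤ M := by exact_mod_cast hM
  have hcard : #(range M) = M := card_range M
  have h1 := hav (range M) (fun i => τ + θ * ((X : ℝ) + i * ℓ) ^ t) (fun l hl hlL => by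
    by_contra hcon
    push Not at hcon
    rw [hcard] at hcon
    set P : Polynomial ℝ := Polynomial.C (ℓ : ℝ) * Polynomial.X + Polynomial.C (X : ℝ) with hP
    have hPdeg : P.natDegree ≤ 1 := Polynomial.natDegree_linear_le
    have hPc : P.coeff 1 = ℓ := by
      rw [hP, Polynomial.coeff_add, Polynomial.coeff_C_mul, Polynomial.coeff_X_one, mul_one,
        Polynomial.coeff_C_of_ne_zero one_ne_zero, add_zero]
    set Q : Polynomial ℝ := Polynomial.C (l * τ) + Polynomial.C (l * θ) * P ^ t with hQ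
    have hPt : (P ^ t).natDegree ≤ t := by
      refine (Polynomial.natDegree_pow_le_of_le t hPdeg).trans (le_of_eq (mul_one t))
    have hQdeg : Q.natDegree ≤ t := by
      refine (Polynomial.natDegree_add_le _ _).trans (max_le ?_ ?_)
      · rw [Polynomial.natDegree_C]
        exact Nat.zero_le _
      · exact (Polynomial.natDegree_C_mul_le _ _).trans hPt
    have hQc : Q.coeff t = l * θ * (ℓ : ℝ) ^ t := by
      have h3 := Polynomial.coeff_pow_of_natDegree_le (m := t) hPdeg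
      rw [mul_one, hPc] at h3
      rw [hQ, Polynomial.coeff_add, Polynomial.coeff_C_of_ne_zero (by omega), zero_add,
        Polynomial.coeff_C_mul, h3]
    have hQe : ∀ i : ℕ, Q.eval (i : ℝ) = l * (τ + θ * ((X : ℝ) + i * ℓ) ^ t) := by
      intro i
      rw [hQ, hP]
      simp only [Polynomial.eval_add, Polynomial.eval_mul, Polynomial.eval_C, Polynomial.eval_pow,
        Polynomial.eval_X]
      have h4 : (ℓ : ℝ) * i + X = (X : ℝ) + i * ℓ := by ring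
      rw [h4]
      ring
    obtain ⟨k, hk1, hkK, hd⟩ := hK M hM Q hQdeg (by
      refine hcon.le.trans (le_of_eq ?_)
      congr 1
      exact sum_congr rfl fun i _ => by rw [hQe i])
    rw [hQc] at hd
    have hk1' : (1 : ℝ) ≤ k := by exact_mod_cast hk1
    have hkK' : (k : ℝ) ≤ K := by exact_mod_cast hkK
    have hl1 : (1 : ℝ) ≤ |(l : ℝ)| := by
      have : (1 : ℤ) ≤ |l| := Int.one_le_abs hl
      exact_mod_cast this
    have hlL' : |(l : ℝ)| ≤ L := by exact_mod_cast hlL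
    have hθ0 : 0 ≤ |θ| * (ℓ : ℝ) ^ t := by positivity
    have habs : |(k : ℝ) * (l * θ * (ℓ : ℝ) ^ t)| = k * |(l : ℝ)| * (|θ| * (ℓ : ℝ) ^ t) := by
      rw [abs_mul, abs_mul, abs_mul, abs_of_nonneg (by linarith : (0 : ℝ) ≤ (k : ℝ)),
        abs_of_nonneg (by positivity : (0 : ℝ) ≤ (ℓ : ℝ) ^ t)]
      ring
    have hkl : (k : ℝ) * |(l : ℝ)| ≤ K * (L + 1) :=
      mul_le_mul hkK' (by linarith) (abs_nonneg _) (by linarith)
    have hkl1 : (1 : ℝ) ≤ (k : ℝ) * |(l : ℝ)| := by nlinarith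
    have hhalf : |(k : ℝ) * (l * θ * (ℓ : ℝ) ^ t)| ≤ 1 / 2 := by
      rw [habs]
      calc (k : ℝ) * |(l : ℝ)| * (|θ| * (ℓ : ℝ) ^ t) ≤ K * (L + 1) * (1 / (2 * (K * (L + 1)))) :=
            mul_le_mul hkl hρ hθ0 (by positivity)
        _ = 1 / 2 := by
            have : (K : ℝ) * (L + 1) ≠ 0 := by positivity
            field_simp
    have h5 := (abs_le_dZ_of_le_half hhalf).trans hd
    rw [habs] at h5
    have h6 : |θ| * (ℓ : ℝ) ^ t ≤ K / (M : ℝ) ^ t := by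
      refine le_trans ?_ h5
      nlinarith
    have hMt : (0 : ℝ) < (M : ℝ) ^ t := by positivity
    rw [le_div_iff₀ hMt] at h6
    have h7 : (X : ℝ) ^ t ≤ (ℓ : ℝ) ^ t * (M : ℝ) ^ t := by
      rw [← mul_pow]
      refine pow_le_pow_left₀ (by positivity) ?_ t
      exact_mod_cast hXM
    have h8 : |θ| * (X : ℝ) ^ t ≤ |θ| * ((ℓ : ℝ) ^ t * (M : ℝ) ^ t) :=
      mul_le_mul_of_nonneg_left h7 (abs_nonneg _)
    have h9 : |θ| * ((ℓ : ℝ) ^ t * (M : ℝ) ^ t) = |θ| * (ℓ : ℝ) ^ t * (M : ℝ) ^ t := by ring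
    linarith)
  rw [hcard] at h1
  exact h1

end Pool.Agent.Lib.MP_3e612f_nt.NF
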