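import Pool.Agent.Lib.MP_3e612f_nt.NF.Base
import Pool.Agent.Lib.MP_629a14_nt.Rob.BT

/-! Primes in short intervals and residue classes (paper, Part U: U-BT). -/

set_option autoImplicit false

namespace Pool.Agent.Lib.MP_3e612f_nt.NF

open Finset
open Pool.Agent.Lib.MP_3e612f_nt.MR (mu ex)

/-- Brun - Titchmarsh: `MP_629a14_nt.Rob.bt` with `κ = 1`, `N = X` and `primes_le_cntR`. -/
theorem bt_short : ∃ C : ℝ, 0 < C ∧ ∃ X₀ : ℕ, ∀ X : ℕ, X₀ ≤ X → ∀ y h r u : ℕ, X ≤ y → 1 ≤ r → r ^ 16 ≤ X → Nat.Coprime u r → X ≤ h ^ 2 →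
    (#((Ioc y (y + h)).filter (fun p => p.Prime ∧ p % r = u % r)) : ℝ) ≤ C * ((h : ℝ) / ((r.totient : ℝ) * Real.log X)) := by
  obtain ⟨C, hC, N₀, hN⟩ := Pool.Agent.Lib.MP_629a14_nt.Rob.bt 1 one_pos le_rfl
  refine ⟨C, hC, N₀, ?_⟩
  intro X hX y h r u hXy hr hrX hur hXh
  have h1 : (r : ℝ) ≤ (X : ℝ) ^ ((1 : ℝ) / 16) := by
    have e1 : ((r : ℝ) ^ (16 : ℕ)) ≤ (X : ℝ) := by exact_mod_cast hrX
    have e2 : (((r : ℝ) ^ (16 : ℕ)) ^ ((1 : ℝ) / 16)) ≤ (X : ℝ) ^ ((1 : ℝ) / 16) :=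
      Real.rpow_le_rpow (by positivity) e1 (by norm_num)
    have e3 : (((r : ℝ) ^ (16 : ℕ)) ^ ((1 : ℝ) / 16)) = (r : ℝ) := by
      rw [← Real.rpow_natCast, ← Real.rpow_mul (Nat.cast_nonneg r)]
      norm_num
    rwa [e3] at e2
  have h2 : (X : ℝ) ^ ((1 : ℝ) / 2) ≤ (h : ℝ) := by
    have e1 : (X : ℝ) ≤ ((h : ℝ) ^ (2 : ℕ)) := by exact_mod_cast hXh
    have e2 : (X : ℝ) ^ ((1 : ℝ) / 2) ≤ (((h : ℝ) ^ (2 : ℕ)) ^ ((1 : ℝ) / 2)) :=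
      Real.rpow_le_rpow (Nat.cast_nonneg X) e1 (by norm_num)
    have e3 : (((h : ℝ) ^ (2 : ℕ)) ^ ((1 : ℝ) / 2)) = (h : ℝ) := by
      rw [← Real.rpow_natCast, ← Real.rpow_mul (Nat.cast_nonneg h)]
      norm_num
    rwa [e3] at e2
  have h3 := hN X hX y h r u hr h1 hur h2
  rw [Real.rpow_one, Nat.floor_natCast] at h3
  have h4 : #((Ioc y (y + h)).filter (fun p => p.Prime ∧ p % r = u % r)) ≤
      Pool.Agent.Lib.MP_629a14_nt.Rob.cntR y h r u X := by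
    refine le_trans (card_le_card ?_)
      (Pool.Agent.Lib.MP_629a14_nt.Rob.primes_le_cntR y h r u X (by omega))
    intro p hp
    rw [mem_filter] at hp ⊢
    exact ⟨hp.1, hp.2.1, hp.2.2⟩
  exact le_trans (by exact_mod_cast h4) h3

end Pool.Agent.Lib.MP_3e612f_nt.NF
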