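import Pool.Agent.Lib.MP_3e612f_nt.NF.WeylAll

/-! Complete sums over the units: the identity and two arithmetic bounds (paper, Part U: U-CS). -/

set_option autoImplicit false

namespace Pool.Agent.Lib.MP_3e612f_nt.NF

open Finset
open Pool.Agent.Lib.MP_3e612f_nt.MR (mu ex)

/-- the sum of the Moebius function over the divisors -/
theorem csA_ind (n : ℕ) : ∑ d ∈ n.divisors, ((ArithmeticFunction.moebius d : ℤ) : ℂ) = if n = 1 then 1 else 0 := by
  have h1 : ∑ d ∈ n.divisors, (ArithmeticFunction.moebius d : ℤ) = if n = 1 then 1 else 0 := by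
    have h2 := congrArg (fun F : ArithmeticFunction ℤ => F n) ArithmeticFunction.moebius_mul_coe_zeta
    simp only [ArithmeticFunction.coe_mul_zeta_apply, ArithmeticFunction.one_apply] at h2
    exact h2
  have h3 := congrArg (fun z : ℤ => (z : ℂ)) h1
  simp only [Int.cast_sum] at h3
  rw [h3]
  split_ifs <;> simp

/-- Moebius inversion for the sum over the residues prime to `r`. -/
theorem cs_mob (r : ℕ) (hr : 1 ≤ r) (f : ℕ → ℂ) :
    ∑ u ∈ (range r).filter (fun u => Nat.Coprime u r), f u = ∑ d ∈ r.divisors, ((ArithmeticFunction.moebius d : ℤ) : ℂ) * ∑ w ∈ range (r / d), f (d * w) := by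
  have h1 : ∀ u ∈ range r, (if Nat.Coprime u r then f u else 0) =
      ∑ d ∈ r.divisors, if d ∣ u then ((ArithmeticFunction.moebius d : ℤ) : ℂ) * f u else 0 := by
    intro u _
    have hg : 1 ≤ Nat.gcd u r := Nat.gcd_pos_of_pos_right _ hr
    have h2 := csA_ind (Nat.gcd u r)
    have h3 : (Nat.gcd u r).divisors = r.divisors.filter (fun d => d ∣ u) := by
      ext d
      rw [Nat.mem_divisors, Finset.mem_filter, Nat.mem_divisors, Nat.dvd_gcd_iff]
      constructor
      · rintro ⟨⟨h4, h5⟩, _⟩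
        exact ⟨⟨h5, by omega⟩, h4⟩
      · rintro ⟨⟨h4, _⟩, h5⟩
        exact ⟨⟨h5, h4⟩, by omega⟩
    rw [h3] at h2
    rw [← Finset.sum_filter, ← Finset.sum_mul, h2]
    unfold Nat.Coprime
    split_ifs <;> simp
  rw [Finset.sum_filter, Finset.sum_congr rfl h1, Finset.sum_comm]
  refine Finset.sum_congr rfl fun d hd => ?_
  have hdr : d ∣ r := Nat.dvd_of_mem_divisors hd
  have hd0 : 0 < d := Nat.pos_of_mem_divisors hd
  rw [← Finset.sum_filter, Finset.mul_sum]
  symm
  refine Finset.sum_nbij' (fun w => d * w) (fun u => u / d) ?_ ?_ ?_ ?_ ?_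
  · intro w hw
    rw [Finset.mem_range] at hw
    rw [Finset.mem_filter, Finset.mem_range]
    refine ⟨?_, dvd_mul_right _ _⟩
    calc d * w < d * (r / d) := (Nat.mul_lt_mul_left hd0).2 hw
      _ = r := Nat.mul_div_cancel' hdr
  · intro u hu
    rw [Finset.mem_filter, Finset.mem_range] at hu
    rw [Finset.mem_range]
    exact Nat.div_lt_div_of_lt_of_dvd hdr hu.1
  · intro w _
    exact Nat.mul_div_cancel_left w hd0
  · intro u hu
    rw [Finset.mem_filter] at hu
    exact Nat.mul_div_cancel' hu.2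
  · intro w _
    rfl

/-- `φ(r) τ(r) ≥ r`: `r/φ(r) = ∏ p/(p-1) ≤ 2^{ω(r)} ≤ τ(r)` (or: the function `d ↦ φ(d)` on the divisors and induction on prime powers). -/
theorem le_totient_mul (r : ℕ) (hr : 1 ≤ r) : r ≤ r.totient * #r.divisors := by
  calc r = ∑ d ∈ r.divisors, d.totient := (Nat.sum_totient r).symm
    _ ≤ ∑ d ∈ r.divisors, r.totient := by
        refine Finset.sum_le_sum fun d hd => ?_
        exact Nat.le_of_dvd (Nat.totient_pos.2 hr) (Nat.totient_dvd_of_dvd (Nat.dvd_of_mem_divisors hd))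
    _ = r.totient * #r.divisors := by rw [Finset.sum_const, smul_eq_mul, mul_comm]

end Pool.Agent.Lib.MP_3e612f_nt.NF
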