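import Pool.Agent.Lib.MP_3e612f_nt.NF.U.MainG
import Pool.Agent.Lib.MP_3e612f_nt.NF.K.Sel

/-! The sieve bound: for every `γ` few primes `p` have `p^t γ` close to a small closed set without rational numbers (paper, Part U: U-Main). -/

set_option autoImplicit false

namespace Pool.Agent.Lib.MP_3e612f_nt.NF

open Finset
open Pool.Agent.Lib.MP_3e612f_nt.MR (mu ex)

open scoped Classical in
/-- U-Main. -/
theorem sieve_bound (t : ℕ) (ht : 1 ≤ t) : ∃ Ct : ℝ, 1 ≤ Ct ∧ ∀ C : Set ℝ, IsClosed C → (∀ x ∈ C, ∀ z : ℤ, x + z ∈ C) → (∀ q : ℚ, (q : ℝ) ∉ C) →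
    ∀ v δ : ℝ, 0 ≤ v → 0 < δ → MeasureTheory.volume (C ∩ Set.Ico 0 1) ≤ ENNReal.ofReal v → ∀ Y₀ : ℕ,
    ∃ P : Finset ℕ, (∀ p ∈ P, p.Prime ∧ Y₀ < p) ∧ 1 / δ ≤ ∑ p ∈ P, 1 / (p : ℝ) ∧ ∃ ρ : ℝ, 0 < ρ ∧ ∀ γ : ℝ,
      ∑ p ∈ P, (if ∃ x ∈ C, |(p : ℝ) ^ t * γ - x| ≤ ρ then 1 / (p : ℝ) else 0) ≤ (Ct * v + δ) * ∑ p ∈ P, 1 / (p : ℝ) := by
  obtain ⟨Ct, hCt, h⟩ := sieve_bound' t ht
  refine ⟨Ct, hCt, fun C hC hper hrat v δ hv hδ hvol Y₀ => ?_⟩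
  obtain ⟨r₀, hr₀⟩ := h C hC hper v δ hv hδ hvol
  have hM : 1 ≤ r₀.factorial := Nat.factorial_pos r₀
  have hM0 : (0 : ℝ) < (r₀.factorial : ℝ) := by exact_mod_cast hM
  obtain ⟨c, hc, hfar⟩ := far_int C hC hper hrat r₀.factorial hM
  -- distance to the rational numbers with small denominators
  have hdist : ∀ x ∈ C, ∀ r : ℕ, 1 ≤ r → r < r₀ → ∀ b : ℤ, c / r₀.factorial ≤ |x - b / r| := by
    intro x hx r hr1 hr2 b
    have hr0 : (r : ℝ) ≠ 0 := by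
      have : r ≠ 0 := by omega
      exact_mod_cast this
    obtain ⟨d, hd⟩ := Nat.dvd_factorial (show 0 < r by omega) hr2.le
    have h1 := hfar x hx
    have h2 : dZ ((r₀.factorial : ℝ) * x) ≤ (r₀.factorial : ℝ) * |x - b / r| := by
      refine (dZ_le_sub_int _ (d * b)).trans (le_of_eq ?_)
      rw [← abs_of_pos hM0, ← abs_mul, abs_of_pos hM0]
      congr 1
      rw [hd]
      push_cast
      field_simp
    rw [div_le_iff₀ hM0]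
    linarith
  obtain ⟨P, hP1, hP2, ρ, hρ, hP3⟩ := hr₀ (c / r₀.factorial / 2) (by positivity) Y₀
  refine ⟨P, hP1, hP2, min ρ (c / r₀.factorial / 2), lt_min hρ (by positivity), fun γ => ?_⟩
  refine le_trans (sum_le_sum fun p _ => ?_) (hP3 γ)
  by_cases h1 : ∃ x ∈ C, |(p : ℝ) ^ t * γ - x| ≤ min ρ (c / r₀.factorial / 2)
  · obtain ⟨x, hx, hxd⟩ := h1
    rw [if_pos ⟨x, hx, hxd⟩, if_pos]
    refine ⟨⟨x, hx, hxd.trans (min_le_left _ _)⟩, fun r hr1 hr2 b => ?_⟩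
    have h2 := hdist x hx r hr1 hr2 b
    have h3 := hxd.trans (min_le_right _ _)
    have h4 : |x - b / r| ≤ |(p : ℝ) ^ t * γ - b / r| + |(p : ℝ) ^ t * γ - x| := by
      have h5 : x - b / r = ((p : ℝ) ^ t * γ - b / r) - ((p : ℝ) ^ t * γ - x) := by ring
      rw [h5]
      exact abs_sub _ _
    linarith
  · rw [if_neg h1]
    split_ifs <;> positivity

end Pool.Agent.Lib.MP_3e612f_nt.NF
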