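import Pool.Agent.Lib.MP_3e612f_nt.NF.U.Block
import Pool.Agent.Lib.MP_3e612f_nt.NF.U.Maj
import Pool.Agent.Lib.MP_3e612f_nt.NF.U.Cheb

/-! The sieve bound, general form (paper v2, Part U). -/

set_option autoImplicit false

namespace Pool.Agent.Lib.MP_3e612f_nt.NF

open Finset
open Pool.Agent.Lib.MP_3e612f_nt.MR (mu ex)

theorem sum_blocks_pow (f : ℕ → ℝ) (j₁ : ℕ) : ∀ k : ℕ, ∑ p ∈ (Ioc (4 ^ j₁ : ℕ) (4 ^ (j₁ + k))).filter Nat.Prime, f p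
    = ∑ i ∈ range k, ∑ p ∈ (Ioc (4 ^ (j₁ + i) : ℕ) (4 ^ (j₁ + i + 1))).filter Nat.Prime, f p := by
  intro k
  induction k with
  | zero => simp
  | succ k ih =>
    rw [sum_range_succ, ← ih]
    have h1 : (4 : ℕ) ^ j₁ ≤ 4 ^ (j₁ + k) := Nat.pow_le_pow_right (by norm_num) (by omega)
    have h2 : (4 : ℕ) ^ (j₁ + k) ≤ 4 ^ (j₁ + (k + 1)) := Nat.pow_le_pow_right (by norm_num) (by omega)
    have h3 : (Ioc (4 ^ j₁ : ℕ) (4 ^ (j₁ + (k + 1)))).filter Nat.Prime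
        = (Ioc (4 ^ j₁ : ℕ) (4 ^ (j₁ + k))).filter Nat.Prime ∪ (Ioc (4 ^ (j₁ + k) : ℕ) (4 ^ (j₁ + (k + 1)))).filter Nat.Prime := by
      rw [← filter_union, Ioc_union_Ioc_eq_Ioc h1 h2]
    rw [h3, sum_union]
    · rfl
    · rw [disjoint_left]
      intro p hp hp'
      rw [mem_filter, mem_Ioc] at hp hp'
      omega

theorem card_bad (j₁ J B k : ℕ) : ((range k).filter (fun i => j₁ + i ∈ Ico J (J + B))).card ≤ B := by
  have h1 : ((range k).filter (fun i => j₁ + i ∈ Ico J (J + B))).card ≤ (Ico J (J + B)).card := by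
    refine card_le_card_of_injOn (fun i => j₁ + i) ?_ ?_
    · intro i hi
      have := (mem_filter.1 hi).2
      exact this
    · intro x _ y _ hxy
      simp only at hxy
      omega
  simpa using h1

open scoped Classical in
/-- U-Main, general form: `C` may contain rational numbers; the primes `p` for which `p^t γ` is within `ρ₀` of a rational number with denominator `< r₀` are not counted. `r₀` depends only on the trigonometric majorant of `C` (hence on `C, v, δ`). -/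
theorem sieve_bound' (t : ℕ) (ht : 1 ≤ t) : ∃ Ct : ℝ, 1 ≤ Ct ∧ ∀ C : Set ℝ, IsClosed C → (∀ x ∈ C, ∀ z : ℤ, x + z ∈ C) →
    ∀ v δ : ℝ, 0 ≤ v → 0 < δ → MeasureTheory.volume (C ∩ Set.Ico 0 1) ≤ ENNReal.ofReal v → ∃ r₀ : ℕ, ∀ ρ₀ : ℝ, 0 < ρ₀ → ∀ Y₀ : ℕ,
    ∃ P : Finset ℕ, (∀ p ∈ P, p.Prime ∧ Y₀ < p) ∧ 1 / δ ≤ ∑ p ∈ P, 1 / (p : ℝ) ∧ ∃ ρ : ℝ, 0 < ρ ∧ ∀ γ : ℝ,
      ∑ p ∈ P, (if (∃ x ∈ C, |(p : ℝ) ^ t * γ - x| ≤ ρ) ∧ (∀ r : ℕ, 1 ≤ r → r < r₀ → ∀ b : ℤ, ρ₀ ≤ |(p : ℝ) ^ t * γ - b / r|) then 1 / (p : ℝ) else 0)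
        ≤ (Ct * v + δ) * ∑ p ∈ P, 1 / (p : ℝ) := by
  obtain ⟨CtB, hCtB, hblock⟩ := block t ht
  obtain ⟨c, hc, jl, hlow⟩ := cheb_low
  obtain ⟨Cu, hCu, hup⟩ := cheb_up
  refine ⟨CtB / c + 1, by have := div_pos hCtB hc; linarith, fun C hC hper v δ hv hδ hvol => ?_⟩
  obtain ⟨L, co, T, c₀, hTM, hc₀, ρ, hρ, hT⟩ := exists_maj C hC hper v (δ * c / (2 * CtB)) hv (by positivity) hvol
  obtain ⟨r₀, hr₀⟩ := hblock L co T c₀ hTM
  refine ⟨r₀, fun ρ₀ hρ₀ Y₀ => ?_⟩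
  obtain ⟨B₀, j₀, hJ⟩ := hr₀ ρ₀ hρ₀
  set j₁ : ℕ := j₀ + jl + Y₀ + ⌈2 * B₀ * Cu⌉₊ + 1 with hj₁
  have hj₁1 : 1 ≤ j₁ := by omega
  have hj₁0 : (0 : ℝ) < j₁ := by exact_mod_cast hj₁1
  have hj₁B : B₀ * (Cu / j₁) ≤ 1 / 2 := by
    have h1 : 2 * B₀ * Cu ≤ j₁ := by
      refine (Nat.le_ceil _).trans ?_
      exact_mod_cast (by omega : ⌈2 * B₀ * Cu⌉₊ ≤ j₁)
    rw [← mul_div_assoc, div_le_iff₀ hj₁0]
    linarith
  have hY : Y₀ < 4 ^ j₁ := by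
    have : j₁ < 4 ^ j₁ := Nat.lt_pow_self (by norm_num)
    omega
  -- divergence
  obtain ⟨k, hk⟩ : ∃ k : ℕ, 1 / δ ≤ ∑ i ∈ range k, c / ((j₁ + i : ℕ) : ℝ) := by
    have h1 := Real.tendsto_sum_range_one_div_nat_succ_atTop
    obtain ⟨k, hk⟩ := (Filter.tendsto_atTop.1 h1 (j₁ / (c * δ))).exists
    refine ⟨k, ?_⟩
    have h2 : (c / j₁) * ∑ i ∈ range k, (1 / ((i : ℝ) + 1)) ≤ ∑ i ∈ range k, c / ((j₁ + i : ℕ) : ℝ) := by
      rw [mul_sum]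
      refine sum_le_sum fun i _ => ?_
      rw [div_mul_div_comm, mul_one]
      refine div_le_div_of_nonneg_left hc.le (by push_cast; positivity) ?_
      push_cast
      have h3 : (1 : ℝ) ≤ j₁ := by exact_mod_cast hj₁1
      have h4 : (0 : ℝ) ≤ i := Nat.cast_nonneg _
      nlinarith
    refine le_trans ?_ h2
    have h3 : 1 / δ = (c / j₁) * (j₁ / (c * δ)) := by
      field_simp
    rw [h3]
    exact mul_le_mul_of_nonneg_left hk (by positivity)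
  set P : Finset ℕ := (Ioc (4 ^ j₁ : ℕ) (4 ^ (j₁ + k))).filter Nat.Prime with hP
  set S : ℕ → ℝ := fun i => ∑ p ∈ (Ioc (4 ^ (j₁ + i) : ℕ) (4 ^ (j₁ + i + 1))).filter Nat.Prime, 1 / (p : ℝ) with hS
  have hPS : ∑ p ∈ P, 1 / (p : ℝ) = ∑ i ∈ range k, S i := sum_blocks_pow (fun p => 1 / (p : ℝ)) j₁ k
  have hPδ : 1 / δ ≤ ∑ p ∈ P, 1 / (p : ℝ) := by
    rw [hPS]
    exact hk.trans (sum_le_sum fun i _ => hlow (j₁ + i) (by omega))
  refine ⟨P, ?_, hPδ, ρ, hρ, fun γ => ?_⟩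
  · intro p hp
    rw [hP, mem_filter, mem_Ioc] at hp
    exact ⟨hp.2, by omega⟩
  obtain ⟨J, hJγ⟩ := hJ γ
  set f : ℕ → ℝ := fun p => if (∃ x ∈ C, |(p : ℝ) ^ t * γ - x| ≤ ρ) ∧ (∀ r : ℕ, 1 ≤ r → r < r₀ → ∀ b : ℤ, ρ₀ ≤ |(p : ℝ) ^ t * γ - b / r|) then 1 / (p : ℝ) else 0 with hf
  have hf1 : ∀ p, f p ≤ 1 / (p : ℝ) := by
    intro p
    simp only [hf]
    split_ifs
    · exact le_rfl
    · positivity
  have hPf : ∑ p ∈ P, f p = ∑ i ∈ range k, ∑ p ∈ (Ioc (4 ^ (j₁ + i) : ℕ) (4 ^ (j₁ + i + 1))).filter Nat.Prime, f p := sum_blocks_pow f j₁ k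
  -- one block
  have hone : ∀ i ∈ range k, ∑ p ∈ (Ioc (4 ^ (j₁ + i) : ℕ) (4 ^ (j₁ + i + 1))).filter Nat.Prime, f p
      ≤ CtB * c₀ / c * S i + (if j₁ + i ∈ Ico J (J + B₀) then Cu / j₁ else 0) := by
    intro i _
    have hji : (0 : ℝ) < ((j₁ + i : ℕ) : ℝ) := by exact_mod_cast (by omega : 0 < j₁ + i)
    have hSi := hlow (j₁ + i) (by omega)
    change c / ((j₁ + i : ℕ) : ℝ) ≤ S i at hSi
    have hS0 : 0 ≤ S i := le_trans (by positivity) hSi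
    have hc₀0 := hTM.pos
    split_ifs with hbad
    · have h1 : ∑ p ∈ (Ioc (4 ^ (j₁ + i) : ℕ) (4 ^ (j₁ + i + 1))).filter Nat.Prime, f p ≤ S i := sum_le_sum fun p _ => hf1 p
      have h2 : S i ≤ Cu / ((j₁ + i : ℕ) : ℝ) := hup (j₁ + i) (by omega)
      have h3 : Cu / ((j₁ + i : ℕ) : ℝ) ≤ Cu / j₁ := by
        refine div_le_div_of_nonneg_left hCu.le hj₁0 ?_
        exact_mod_cast (by omega : j₁ ≤ j₁ + i)
      have h4 : 0 ≤ CtB * c₀ / c * S i := by positivity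
      linarith
    · rw [add_zero]
      have h1 := hJγ (j₁ + i) (by omega) hbad
      have h2 : ∑ p ∈ (Ioc (4 ^ (j₁ + i) : ℕ) (4 ^ (j₁ + i + 1))).filter Nat.Prime, f p
          ≤ (∑ p ∈ (Ioc (4 ^ (j₁ + i) : ℕ) (4 ^ (j₁ + i + 1))).filter (fun p : ℕ => p.Prime ∧ ∀ r : ℕ, 1 ≤ r → r < r₀ → ∀ b : ℤ, ρ₀ ≤ |(p : ℝ) ^ t * γ - b / r|), T ((p : ℝ) ^ t * γ)) / (4 : ℝ) ^ (j₁ + i) := by
        rw [← filter_filter, sum_div, sum_filter (s := (Ioc (4 ^ (j₁ + i) : ℕ) (4 ^ (j₁ + i + 1))).filter Nat.Prime)]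
        refine sum_le_sum fun p hp => ?_
        rw [mem_filter, mem_Ioc] at hp
        have hp4 : (4 : ℝ) ^ (j₁ + i) < p := by exact_mod_cast hp.1.1
        have h40 : (0 : ℝ) < (4 : ℝ) ^ (j₁ + i) := by positivity
        simp only [hf]
        by_cases hfar : ∀ r : ℕ, 1 ≤ r → r < r₀ → ∀ b : ℤ, ρ₀ ≤ |(p : ℝ) ^ t * γ - b / r|
        · rw [if_pos hfar]
          by_cases hnear : ∃ x ∈ C, |(p : ℝ) ^ t * γ - x| ≤ ρ
          · rw [if_pos ⟨hnear, hfar⟩]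
            have := hT _ hnear
            exact div_le_div₀ (by linarith) this h40 hp4.le
          · rw [if_neg (fun h => hnear h.1)]
            exact div_nonneg (hTM.nonneg _) h40.le
        · rw [if_neg hfar, if_neg (fun h => hfar h.2)]
      refine h2.trans ?_
      rw [div_le_iff₀ (by positivity)]
      refine h1.trans ?_
      have h3 : CtB * c₀ * ((4 : ℝ) ^ (j₁ + i) / ((j₁ + i : ℕ) : ℝ)) = CtB * c₀ / c * (c / ((j₁ + i : ℕ) : ℝ)) * (4 : ℝ) ^ (j₁ + i) := by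
        field_simp
      rw [h3]
      refine mul_le_mul_of_nonneg_right ?_ (by positivity)
      exact mul_le_mul_of_nonneg_left hSi (by positivity)
  change ∑ p ∈ P, f p ≤ _
  rw [hPf]
  refine (sum_le_sum hone).trans ?_
  rw [sum_add_distrib, ← mul_sum, ← hPS, ← sum_filter, sum_const, nsmul_eq_mul]
  have hcard : (((range k).filter (fun i => j₁ + i ∈ Ico J (J + B₀))).card : ℝ) ≤ B₀ := by exact_mod_cast card_bad j₁ J B₀ k
  set SP : ℝ := ∑ p ∈ P, 1 / (p : ℝ) with hSP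
  have hSP0 : 0 < SP := lt_of_lt_of_le (by positivity) hPδ
  have hA : (((range k).filter (fun i => j₁ + i ∈ Ico J (J + B₀))).card : ℝ) * (Cu / j₁) ≤ δ / 2 * SP := by
    have h1 : (((range k).filter (fun i => j₁ + i ∈ Ico J (J + B₀))).card : ℝ) * (Cu / j₁) ≤ B₀ * (Cu / j₁) := mul_le_mul_of_nonneg_right hcard (by positivity)
    have h2 : 1 / 2 ≤ δ / 2 * SP := by
      have : δ / 2 * (1 / δ) ≤ δ / 2 * SP := mul_le_mul_of_nonneg_left hPδ (by positivity)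
      have h3 : δ / 2 * (1 / δ) = 1 / 2 := by field_simp
      linarith
    linarith
  have hB : CtB * c₀ / c * SP ≤ (CtB / c * v + δ / 2) * SP := by
    refine mul_le_mul_of_nonneg_right ?_ hSP0.le
    have h1 : CtB * c₀ / c ≤ CtB * (v + δ * c / (2 * CtB)) / c := by
      refine div_le_div_of_nonneg_right ?_ hc.le
      exact mul_le_mul_of_nonneg_left hc₀ hCtB.le
    have h2 : CtB * (v + δ * c / (2 * CtB)) / c = CtB / c * v + δ / 2 := by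
      field_simp
    linarith
  have hvS : 0 ≤ v * SP := by positivity
  have : (CtB / c * v + δ / 2) * SP + δ / 2 * SP ≤ ((CtB / c + 1) * v + δ) * SP := by nlinarith
  linarith

end Pool.Agent.Lib.MP_3e612f_nt.NF
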