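import Pool.Agent.Lib.MP_3e612f_nt.NF.K.Sel

/-! Nonnegative trigonometric polynomials (paper, Part U: U-Maj). -/

set_option autoImplicit false

namespace Pool.Agent.Lib.MP_3e612f_nt.NF

open Finset
open Pool.Agent.Lib.MP_3e612f_nt.MR (mu ex)

/-- A nonnegative trigonometric polynomial with constant term `c₀ > 0`. -/
structure TM (L : ℕ) (c : ℤ → ℂ) (T : ℝ → ℝ) (c₀ : ℝ) : Prop where
  eq : ∀ x : ℝ, (T x : ℂ) = ∑ l ∈ Icc (-(L : ℤ)) L, c l * ex (l * x)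
  nonneg : ∀ x, 0 ≤ T x
  zero : c 0 = (c₀ : ℂ)
  pos : 0 < c₀

/-- periodicity -/
theorem TM.per {L : ℕ} {c : ℤ → ℂ} {T : ℝ → ℝ} {c₀ : ℝ} (h : TM L c T c₀) (x : ℝ) (z : ℤ) : T (x + z) = T x := by
  have h1 : ((T (x + z) : ℝ) : ℂ) = (T x : ℂ) := by
    rw [h.eq, h.eq]
    refine sum_congr rfl fun l _ => ?_
    have h2 : (l : ℝ) * (x + z) = l * x + ((l * z : ℤ) : ℝ) := by
      push_cast
      ring
    rw [h2, ex_add_int]
  exact_mod_cast h1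

/-- Lipschitz (`norm_ex_sub_ex_le`) -/
theorem TM.lip {L : ℕ} {c : ℤ → ℂ} {T : ℝ → ℝ} {c₀ : ℝ} (h : TM L c T c₀) : ∃ M : ℝ, 1 ≤ M ∧ ∀ x y : ℝ, |T x - T y| ≤ M * |x - y| := by
  refine ⟨1 + ∑ l ∈ Icc (-(L : ℤ)) L, ‖c l‖ * (7 * |(l : ℝ)|), ?_, ?_⟩
  · have : 0 ≤ ∑ l ∈ Icc (-(L : ℤ)) L, ‖c l‖ * (7 * |(l : ℝ)|) := sum_nonneg fun l _ => by positivity
    linarith
  · intro x y
    have h1 : |T x - T y| = ‖((T x : ℂ)) - (T y : ℂ)‖ := by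
      rw [← Complex.ofReal_sub, Complex.norm_real, Real.norm_eq_abs]
    rw [h1, h.eq, h.eq, ← sum_sub_distrib]
    have h2 : ∀ l ∈ Icc (-(L : ℤ)) L, ‖c l * ex (l * x) - c l * ex (l * y)‖ ≤
        ‖c l‖ * (7 * |(l : ℝ)|) * |x - y| := by
      intro l _
      rw [← mul_sub, norm_mul, mul_assoc, mul_assoc]
      refine mul_le_mul_of_nonneg_left ((norm_ex_sub_ex_le _ _).trans (le_of_eq ?_)) (norm_nonneg _)
      rw [← mul_sub, abs_mul]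
    refine (norm_sum_le_of_le _ h2).trans ?_
    rw [← sum_mul, add_mul, one_mul]
    have := abs_nonneg (x - y)
    linarith

/-- Averages: if all nontrivial exponential averages over a finite family `f` are small then the average of `T` is at most `2 c₀`.
(`T = ∑ c_l e(l x)`, the terms `l ≠ 0` contribute at most `∑ |c_l| κ |s| ≤ c₀ |s|` with `κ = c₀ / (1 + ∑ |c_l|)`.) -/
theorem TM.avg {L : ℕ} {c : ℤ → ℂ} {T : ℝ → ℝ} {c₀ : ℝ} (h : TM L c T c₀) : ∃ κ : ℝ, 0 < κ ∧ ∀ {α : Type} (s : Finset α) (f : α → ℝ),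
    (∀ l : ℤ, l ≠ 0 → |l| ≤ L → ‖∑ i ∈ s, ex (l * f i)‖ ≤ κ * #s) → ∑ i ∈ s, T (f i) ≤ 2 * c₀ * #s := by
  obtain ⟨S, hS⟩ : ∃ S, S = ∑ l ∈ Icc (-(L : ℤ)) L, ‖c l‖ := ⟨_, rfl⟩
  have hS0 : 0 ≤ S := by
    rw [hS]
    exact sum_nonneg fun l _ => norm_nonneg _
  have hc := h.pos
  refine ⟨c₀ / (1 + S), by positivity, ?_⟩
  intro α s f hf
  have h1 : ((∑ i ∈ s, T (f i) : ℝ) : ℂ) = ∑ l ∈ Icc (-(L : ℤ)) L, c l * ∑ i ∈ s, ex (l * f i) := by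
    push_cast
    simp only [h.eq, mul_sum]
    rw [sum_comm]
  have h2 : ∑ l ∈ Icc (-(L : ℤ)) L, c l * ∑ i ∈ s, ex (l * f i) =
      c 0 * ∑ i ∈ s, ex (((0 : ℤ) : ℝ) * f i) +
        ∑ l ∈ (Icc (-(L : ℤ)) L).erase 0, c l * ∑ i ∈ s, ex (l * f i) := by
    rw [add_sum_erase _ (fun l : ℤ => c l * ∑ i ∈ s, ex (l * f i))]
    rw [mem_Icc]
    omega
  have h3 : c 0 * ∑ i ∈ s, ex (((0 : ℤ) : ℝ) * f i) = ((c₀ * #s : ℝ) : ℂ) := by
    rw [h.zero]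
    push_cast
    simp [ex_zero]
  have h4 : ‖∑ l ∈ (Icc (-(L : ℤ)) L).erase 0, c l * ∑ i ∈ s, ex (l * f i)‖ ≤ c₀ * #s := by
    have h5 : ∀ l ∈ (Icc (-(L : ℤ)) L).erase 0, ‖c l * ∑ i ∈ s, ex (l * f i)‖ ≤
        ‖c l‖ * (c₀ / (1 + S) * #s) := by
      intro l hl
      rw [mem_erase, mem_Icc] at hl
      rw [norm_mul]
      exact mul_le_mul_of_nonneg_left (hf l hl.1 (abs_le.2 hl.2)) (norm_nonneg _)
    refine (norm_sum_le_of_le _ h5).trans ?_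
    rw [← sum_mul]
    have h6 : ∑ l ∈ (Icc (-(L : ℤ)) L).erase 0, ‖c l‖ ≤ S := by
      rw [hS]
      exact sum_le_sum_of_subset_of_nonneg (erase_subset _ _) fun _ _ _ => norm_nonneg _
    have h7 : 0 ≤ c₀ / (1 + S) * #s := by positivity
    refine (mul_le_mul_of_nonneg_right h6 h7).trans ?_
    have h8 : S * (c₀ / (1 + S)) ≤ c₀ := by
      rw [mul_div_assoc', div_le_iff₀ (by positivity)]
      nlinarith
    calc S * (c₀ / (1 + S) * #s) = S * (c₀ / (1 + S)) * #s := by ring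
      _ ≤ c₀ * #s := mul_le_mul_of_nonneg_right h8 (Nat.cast_nonneg _)
  have h9 : ‖((∑ i ∈ s, T (f i) : ℝ) : ℂ)‖ ≤ c₀ * #s + c₀ * #s := by
    rw [h1, h2, h3]
    refine (norm_add_le _ _).trans (add_le_add ?_ h4)
    rw [Complex.norm_real, Real.norm_eq_abs, abs_of_nonneg (by positivity)]
  rw [Complex.norm_real, Real.norm_eq_abs] at h9
  have := le_abs_self (∑ i ∈ s, T (f i))
  linarith

end Pool.Agent.Lib.MP_3e612f_nt.NF
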